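import Pool.Agent.Work.MP_bde882_al_h69.EnumE
import Pool.Agent.Work.MP_bde882_al_h64.Big
import Pool.Agent.Work.MP_bde882_al_h87.Model
import Pool.Agent.Work.MP_bde882_al_h62.Widen4

/-!
All leaf tests (`DP.Leaves`) from the list of jobs.
-/

set_option autoImplicit false

namespace Pool.Agent.Work.MP_bde882_al.H69

open Pool.Agent.Work.MP_bde882_al.H87 (HH dm dg dB DH DH_HH wcut sh)
open Pool.Agent.Work.MP_bde882_al.Fin8 (cct lbCt ct)
open Pool.Agent.Work.MP_bde882_al.W62 (wcut4)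

theorem dg0_eq (β : ℕ) (hβ : β < 343) : dg 0 β = β / 49 := by
  change β / 49 % 7 = β / 49
  omega

theorem dg1_eq (β : ℕ) : dg 1 β = β / 7 % 7 := rfl

theorem dg2_eq (β : ℕ) : dg 2 β = β % 7 := by
  change β / 1 % 7 = β % 7
  rw [Nat.div_one]

theorem cct_eq (c : Fin 6 → Fin 504) (β : ℕ) (l : Fin 3) :
    cct c β l = dg l β + ∑ i, wt l (c i) := by
  unfold cct
  rw [Pi.add_apply, Finset.sum_apply]
  rfl

/-- the leaf test of the jobs -/
noncomputable def lfJ (β m : ℕ) (l : List Pg62.Op) : Bool :=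
  Pg62.lt6 wcut4 β (Nat.pow 2 (Nat.mul 30 m)) l

/-- **All leaf tests from the jobs.** -/
theorem leaves_of (GA : List (ℕ × List (Hd × List Pg62.Op))) (hG : shp GA = SHA)
    (TBL : List Pg62.Op) (hT : (flat3 GA).map (fun x => x.2.2) = TBL) (tb : Fin 504 → Pg62.Op)
    (htb : ∀ i : Fin 504, TBL[i.val]? = some (tb i))
    (hjobs : allJ GA (fun β m l => Pg62.lt6 wcut4 β (Nat.pow 2 (Nat.mul 30 m)) l)
      (jobsX GA dm) = true) : DP.Leaves HH wcut tb := by
  intro c hc h18 h5 β hβ hd h6 _ m hm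
  have k0 := h6 0
  have k1 := h6 1
  have k2 := h6 2
  rw [cct_eq, dg0_eq β hβ] at k0
  rw [cct_eq, dg1_eq] at k1
  rw [cct_eq, dg2_eq] at k2
  rw [dB, dg0_eq β hβ, dg1_eq, dg2_eq] at hd
  rw [DH_HH β hβ] at hm
  have h := enumE GA hG TBL hT tb htb
    (fun β m l => Pg62.lt6 wcut4 β (Nat.pow 2 (Nat.mul 30 m)) l) dm hjobs β hβ m hm c hc
    k0 k1 k2 hd h5
  rw [W62.lt6_wcut4, List.map_ofFn] at h
  exact h

end Pool.Agent.Work.MP_bde882_al.H69
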