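import Pool.Agent.Work.MP_bde882_al_h69.EnumA

/-!
# The list of all jobs

`jobsX GA dd` is the computed list of all jobs (start block, basis vector, header and element of
the largest entry); if all of them are true, all leaf tests are true.
-/

set_option autoImplicit false

namespace Pool.Agent.Work.MP_bde882_al.H69

section

variable {ε : Type*}

/-- conjunction of the jobs of a list -/
def allJ (GA : List (ℕ × List (Hd × List ε))) (leaf : ℕ → ℕ → List ε → Bool)
    (l : List (ℕ × ℕ × Hd × ε)) : Bool :=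
  @List.rec (ℕ × ℕ × Hd × ε) (fun _ => Bool) true
    (fun j _ ih => @Bool.rec (fun _ => Bool) false ih
      (@Prod.rec ℕ (ℕ × Hd × ε) (fun _ => Bool) (fun β x =>
        @Prod.rec ℕ (Hd × ε) (fun _ => Bool) (fun m y =>
          @Prod.rec Hd ε (fun _ => Bool) (fun h e => jobE GA leaf β m h e) y) x) j)) l

theorem allJ_nil (GA : List (ℕ × List (Hd × List ε))) (leaf : ℕ → ℕ → List ε → Bool) :
    allJ GA leaf [] = true := rfl

theorem allJ_cons (GA : List (ℕ × List (Hd × List ε))) (leaf : ℕ → ℕ → List ε → Bool)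
    (β m : ℕ) (h : Hd) (e : ε) (l : List (ℕ × ℕ × Hd × ε)) :
    allJ GA leaf ((β, m, h, e) :: l) = and (jobE GA leaf β m h e) (allJ GA leaf l) := by
  change @Bool.rec (fun _ => Bool) false (allJ GA leaf l) (jobE GA leaf β m h e) = _
  cases jobE GA leaf β m h e <;> rfl

theorem allJ_append (GA : List (ℕ × List (Hd × List ε))) (leaf : ℕ → ℕ → List ε → Bool)
    (l l' : List (ℕ × ℕ × Hd × ε)) :
    allJ GA leaf (l ++ l') = and (allJ GA leaf l) (allJ GA leaf l') := by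
  induction l with
  | nil => rfl
  | cons j l ih =>
    obtain ⟨β, m, h, e⟩ := j
    rw [List.cons_append, allJ_cons, allJ_cons, ih, Bool.and_assoc]

theorem allJ_append_true {GA : List (ℕ × List (Hd × List ε))} {leaf : ℕ → ℕ → List ε → Bool}
    {l l' : List (ℕ × ℕ × Hd × ε)} (h : allJ GA leaf l = true) (h' : allJ GA leaf l' = true) :
    allJ GA leaf (l ++ l') = true := by
  rw [allJ_append, h, h']
  rfl

theorem allJ_iff (GA : List (ℕ × List (Hd × List ε))) (leaf : ℕ → ℕ → List ε → Bool)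
    (l : List (ℕ × ℕ × Hd × ε)) :
    allJ GA leaf l = true ↔ ∀ j ∈ l, jobE GA leaf j.1 j.2.1 j.2.2.1 j.2.2.2 = true := by
  induction l with
  | nil => simp [allJ_nil]
  | cons j l ih =>
    obtain ⟨β, m, h, e⟩ := j
    rw [allJ_cons, Bool.and_eq_true, ih, List.forall_mem_cons]

/-- the jobs for the start block `β`, basis vector `m` -/
def jobsM (GA : List (ℕ × List (Hd × List ε))) (β m : ℕ) : List (ℕ × ℕ × Hd × ε) :=
  GA.flatMap fun c => c.2.flatMap fun g =>
    cond (and (Nat.ble (2 * g.1.dg + 3) (capB β)) (cntA g.1 (RB β)))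
      (g.2.map fun e => (β, m, g.1, e)) []

/-- the jobs for the start block `β` -/
def jobsB (GA : List (ℕ × List (Hd × List ε))) (dd : ℕ → ℕ) (β : ℕ) :
    List (ℕ × ℕ × Hd × ε) :=
  cond (Nat.ble (β / 49 + β / 7 % 7 + β % 7) 6)
    ((List.range (dd β)).flatMap fun m => jobsM GA β m) []

/-- all jobs -/
def jobsX (GA : List (ℕ × List (Hd × List ε))) (dd : ℕ → ℕ) : List (ℕ × ℕ × Hd × ε) :=
  (List.range 343).flatMap fun β => jobsB GA dd β

/-- **Coverage.** If all the jobs are true, all leaf tests are true. -/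
theorem enumE (GA : List (ℕ × List (Hd × List ε))) (hG : shp GA = SHA)
    (TBL : List ε) (hT : (flat3 GA).map (fun x => x.2.2) = TBL) (tb : Fin 504 → ε)
    (htb : ∀ i : Fin 504, TBL[i.val]? = some (tb i)) (leaf : ℕ → ℕ → List ε → Bool)
    (dd : ℕ → ℕ) (hjobs : allJ GA leaf (jobsX GA dd) = true)
    (β : ℕ) (hβ : β < 343) (m : ℕ) (hmd : m < dd β) (cc : Fin 6 → Fin 504)
    (hm : Monotone cc) (h0 : β / 49 + ∑ i, wt 0 (cc i) ≤ 6)
    (h1 : β / 7 % 7 + ∑ i, wt 1 (cc i) ≤ 6) (h2 : β % 7 + ∑ i, wt 2 (cc i) ≤ 6)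
    (hdeg : 2 * (β / 49 + β / 7 % 7 + β % 7) + ∑ i, lbDeg (cc i) ≤ 18)
    (hbal : lbDeg (cc 5) ≤ lbDeg (cc 4) + 1) :
    leaf β m ((List.ofFn cc).map tb) = true := by
  have p0 := lbDeg_pos (cc 0)
  have p1 := lbDeg_pos (cc 1)
  have p2 := lbDeg_pos (cc 2)
  have p3 := lbDeg_pos (cc 3)
  have hdeg' := hdeg
  have h0' := h0
  have h1' := h1
  have h2' := h2
  simp only [Fin.sum_univ_six] at hdeg' h0' h1' h2'
  have hlev : β / 49 + β / 7 % 7 + β % 7 ≤ 6 := by
    have p4 := lbDeg_pos (cc 4)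
    have p5 := lbDeg_pos (cc 5)
    omega
  have hcnt : cntA (hd (cc 5)) (RB β) = true := by
    have h := land_guard (6 - β / 49 - wt 0 (cc 5)) (by omega)
      (6 - β / 7 % 7 - wt 1 (cc 5)) (by omega) (6 - β % 7 - wt 2 (cc 5)) (by omega)
    have e : Nat.sub (Nat.add (RB β) 2184) (hd (cc 5)).pc
        = 256 * (8 + (6 - β / 49 - wt 0 (cc 5))) + 16 * (8 + (6 - β / 7 % 7 - wt 1 (cc 5)))
          + (8 + (6 - β % 7 - wt 2 (cc 5))) := by
      change pk (6 - β / 49) (6 - β / 7 % 7) (6 - β % 7) + 2184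
        - pk (wt 0 (cc 5)) (wt 1 (cc 5)) (wt 2 (cc 5)) = _
      simp only [pk]
      omega
    rw [cntA, e, h]
    rfl
  have hcap : 2 * lbDeg (cc 5) + 3 ≤ capB β := by
    rw [capB]
    omega
  obtain ⟨hlen, hget⟩ := flat3_getA GA hG TBL hT tb htb
  have h7 : (lbDeg (cc 5), hd (cc 5), tb (cc 5)) ∈ flat3 GA := by
    have hlt : (cc 5).val < (flat3 GA).length := by
      rw [hlen]
      exact (cc 5).isLt
    have h70 := List.getElem_mem hlt
    rw [hget (cc 5).val (cc 5).isLt] at h70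
    exact h70
  rw [flat3, List.mem_flatMap] at h7
  obtain ⟨cl, hcl, h8⟩ := h7
  obtain ⟨x, hx, h9⟩ := List.mem_map.1 h8
  rw [flat, List.mem_flatMap] at hx
  obtain ⟨g, hg, h10⟩ := hx
  obtain ⟨e, he, h11⟩ := List.mem_map.1 h10
  have h12 : g.1 = hd (cc 5) ∧ e = tb (cc 5) := by
    rw [← h11] at h9
    have := (Prod.ext_iff.1 h9).2
    exact ⟨(Prod.ext_iff.1 this).1, (Prod.ext_iff.1 this).2⟩
  have hjob : (β, m, hd (cc 5), tb (cc 5)) ∈ jobsX GA dd := by
    rw [jobsX, List.mem_flatMap]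
    refine ⟨β, List.mem_range.2 hβ, ?_⟩
    rw [jobsB, Nat.ble_eq_true_of_le hlev, cond_true, List.mem_flatMap]
    refine ⟨m, List.mem_range.2 hmd, ?_⟩
    rw [jobsM, List.mem_flatMap]
    refine ⟨cl, hcl, ?_⟩
    rw [List.mem_flatMap]
    refine ⟨g, hg, ?_⟩
    rw [h12.1, hd_dg, Nat.ble_eq_true_of_le hcap, hcnt]
    change _ ∈ g.2.map fun e => (β, m, hd (cc 5), e)
    rw [List.mem_map]
    exact ⟨e, he, by rw [h12.2]⟩
  have h60 := (allJ_iff GA leaf _).1 hjobs _ hjob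
  dsimp only at h60
  rw [jobE, frc_eq, frc_eq, frc_eq, frc_eq] at h60
  refine runA_sound GA hG TBL hT tb htb (leaf β m) (6 - β / 49) (6 - β / 7 % 7) (6 - β % 7)
    (capB β) (Nat.sub_le _ _) (Nat.sub_le _ _) (Nat.sub_le _ _) cc ?_ hm (by omega) (by omega)
    (by omega) (by rw [capB]; omega) hbal
  have h14 : Nat.sub (RB β) (hd (cc 5)).pc
      = pk (6 - β / 49 - wt 0 (cc 5)) (6 - β / 7 % 7 - wt 1 (cc 5)) (6 - β % 7 - wt 2 (cc 5)) :=
    pk_sub _ _ _ _ _ _ (by omega) (by omega) (by omega)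
  rw [h14, hd_dg] at h60
  exact h60

end

end Pool.Agent.Work.MP_bde882_al.H69
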