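import Pool.Agent.Work.MP_bde882_al_h93.RedSym

/-!
Block LIE of the certificate for `MP_bde882_al`: right-normed brackets of the letters span the
components of degree `≤ 7` of the Lie ring generated by three letters, with explicit lists of
words (`8, 18, 48, 116, 312` words in degrees `3, …, 7`).
-/

set_option autoImplicit false

namespace Pool.Agent.Work.MP_bde882_al.H69

open Pool.Agent.Work.MP_bde882_al.H93

/-! ### Noncommutative polynomials in three letters as tries -/

/-- polynomials: constant term and the three left quotients -/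
inductive Tr : Type
  | nil : Tr
  | node : ℕ → Tr → Tr → Tr → Tr

namespace Tr

def add : Tr → Tr → Tr
  | nil, t => t
  | node k a b c, nil => node k a b c
  | node k a b c, node k' a' b' c' => node (k + k') (add a a') (add b b') (add c c')

def smul (n : ℕ) : Tr → Tr
  | nil => nil
  | node k a b c => node (n * k) (smul n a) (smul n b) (smul n c)

def addC (k : ℕ) : Tr → Tr
  | nil => bif k.beq 0 then nil else node k nil nil nil
  | node k' a b c => node (k + k') a b c

def mulL (i : Fin 3) (t : Tr) : Tr :=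
  match i with
  | 0 => node 0 t nil nil
  | 1 => node 0 nil t nil
  | 2 => node 0 nil nil t

def mulR (i : Fin 3) : Tr → Tr
  | nil => nil
  | node k a b c =>
    match i with
    | 0 => node 0 (addC k (mulR 0 a)) (mulR 0 b) (mulR 0 c)
    | 1 => node 0 (mulR 1 a) (addC k (mulR 1 b)) (mulR 1 c)
    | 2 => node 0 (mulR 2 a) (mulR 2 b) (addC k (mulR 2 c))

def isZ : Tr → Bool
  | nil => true
  | node k a b c => (k % 7).beq 0 && (isZ a && (isZ b && isZ c))

variable {R : Type*} [Ring R]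

def eval (X : Fin 3 → R) : Tr → R
  | nil => 0
  | node k a b c => (k : R) + X 0 * eval X a + X 1 * eval X b + X 2 * eval X c

theorem eval_add (X : Fin 3 → R) (s t : Tr) : eval X (add s t) = eval X s + eval X t := by
  induction s generalizing t with
  | nil => simp [add, eval]
  | node k a b c iha ihb ihc =>
    cases t with
    | nil => simp [add, eval]
    | node k' a' b' c' =>
      simp only [add, eval, iha, ihb, ihc, Nat.cast_add, mul_add]
      abel

theorem eval_smul (X : Fin 3 → R) (n : ℕ) (t : Tr) : eval X (smul n t) = (n : R) * eval X t := by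
  induction t with
  | nil => simp [smul, eval]
  | node k a b c iha ihb ihc =>
    simp only [smul, eval, iha, ihb, ihc, Nat.cast_mul]
    have h : ∀ (i : Fin 3) (y : R), X i * ((n : R) * y) = (n : R) * (X i * y) := by
      intro i y
      rw [← mul_assoc, ← (Nat.cast_commute n (X i)).eq, mul_assoc]
    rw [h, h, h]
    simp only [mul_add]

theorem eval_addC (X : Fin 3 → R) (k : ℕ) (t : Tr) : eval X (addC k t) = (k : R) + eval X t := by
  cases t with
  | nil =>
    rw [addC]
    cases h : k.beq 0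
    · simp [eval]
    · have : k = 0 := Nat.eq_of_beq_eq_true h
      subst this
      simp [eval]
  | node k' a b c =>
    simp only [addC, eval, Nat.cast_add]
    abel

theorem eval_mulL (X : Fin 3 → R) (i : Fin 3) (t : Tr) : eval X (mulL i t) = X i * eval X t := by
  fin_cases i <;> simp [mulL, eval]

theorem eval_mulR (X : Fin 3 → R) (i : Fin 3) (t : Tr) : eval X (mulR i t) = eval X t * X i := by
  have hk : ∀ (k : ℕ), (k : R) * X i = X i * (k : R) := fun k => (Nat.cast_commute k (X i)).eq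
  induction t with
  | nil => simp [mulR, eval]
  | node k a b c iha ihb ihc =>
    have h := hk k
    fin_cases i
    · simp only [Fin.zero_eta, Fin.isValue, Fin.mk_one, Fin.reduceFinMk] at *
      simp only [mulR, eval, eval_addC, iha, ihb, ihc, Nat.cast_zero]
      simp only [add_mul, mul_add, h, mul_assoc]
      abel
    · simp only [Fin.zero_eta, Fin.isValue, Fin.mk_one, Fin.reduceFinMk] at *
      simp only [mulR, eval, eval_addC, iha, ihb, ihc, Nat.cast_zero]
      simp only [add_mul, mul_add, h, mul_assoc]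
      abel
    · simp only [Fin.zero_eta, Fin.isValue, Fin.mk_one, Fin.reduceFinMk] at *
      simp only [mulR, eval, eval_addC, iha, ihb, ihc, Nat.cast_zero]
      simp only [add_mul, mul_add, h, mul_assoc]
      abel

theorem eval_isZ (X : Fin 3 → R) (h7 : (7 : R) = 0) (t : Tr) (h : isZ t = true) :
    eval X t = 0 := by
  induction t with
  | nil => rfl
  | node k a b c iha ihb ihc =>
    rw [isZ, Bool.and_eq_true, Bool.and_eq_true, Bool.and_eq_true] at h
    obtain ⟨hk, ha, hb, hc⟩ := h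
    have hk' : k % 7 = 0 := Nat.eq_of_beq_eq_true hk
    obtain ⟨m, rfl⟩ := Nat.dvd_of_mod_eq_zero hk'
    simp [eval, iha ha, ihb hb, ihc hc, h7]

end Tr

/-! ### Right-normed brackets -/

section rn

variable {R : Type*} [Ring R]

/-- the right-normed bracket `[X a, [X b, …]]` -/
def rn (X : Fin 3 → R) : List (Fin 3) → R
  | [] => 0
  | [a] => X a
  | a :: b :: w => X a * rn X (b :: w) - rn X (b :: w) * X a

theorem rn_cons (X : Fin 3 → R) (a : Fin 3) (w : List (Fin 3)) (hw : w ≠ []) :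
    rn X (a :: w) = X a * rn X w - rn X w * X a := by
  cases w with
  | nil => exact absurd rfl hw
  | cons b w => rfl

/-- the digit `n % 4` as a letter -/
def dig (n : ℕ) : Fin 3 :=
  match n % 4 with
  | 0 => 0
  | 1 => 1
  | _ => 2

/-- the word of length `d` with code `n` -/
def dec : ℕ → ℕ → List (Fin 3)
  | 0, _ => []
  | d + 1, n => dig n :: dec d (n / 4)

/-- the expansion of the right-normed bracket of the word of length `d + 1` and code `n` -/
def rnT : ℕ → ℕ → Tr
  | 0, n => Tr.mulL (dig n) (Tr.node 1 Tr.nil Tr.nil Tr.nil)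
  | d + 1, n =>
    let t := rnT d (n / 4)
    Tr.add (Tr.mulL (dig n) t) (Tr.smul 6 (Tr.mulR (dig n) t))

theorem eval_rnT (X : Fin 3 → R) (h7 : (7 : R) = 0) (d n : ℕ) :
    Tr.eval X (rnT d n) = rn X (dec (d + 1) n) := by
  have h6 : (6 : R) = -1 := by
    have : (6 : R) + 1 = 0 := by
      rw [← h7]
      norm_num
    exact eq_neg_of_add_eq_zero_left this
  induction d generalizing n with
  | zero => simp [rnT, Tr.eval_mulL, Tr.eval, dec, rn]
  | succ d ih =>
    rw [rnT, Tr.eval_add, Tr.eval_mulL, Tr.eval_smul, Tr.eval_mulR, ih]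
    rw [show dec (d + 1 + 1) n = dig n :: dec (d + 1) (n / 4) from rfl,
      rn_cons X _ _ (by simp [dec])]
    push_cast
    rw [h6]
    noncomm_ring

/-- combinations -/
def comb (d : ℕ) : List (ℕ × ℕ) → Tr
  | [] => Tr.nil
  | (c, n) :: L => Tr.add (Tr.smul c (rnT d n)) (comb d L)

theorem eval_comb_mem {F : Type*} [Field F] [Algebra F R] (X : Fin 3 → R) (h7 : (7 : R) = 0)
    (d : ℕ) (M : Submodule F R) (L : List (ℕ × ℕ))
    (hL : ∀ x ∈ L, rn X (dec (d + 1) x.2) ∈ M) : Tr.eval X (comb d L) ∈ M := by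
  induction L with
  | nil => exact M.zero_mem
  | cons x L ih =>
    obtain ⟨c, n⟩ := x
    rw [comb, Tr.eval_add, Tr.eval_smul, eval_rnT X h7]
    refine M.add_mem ?_ (ih fun y hy => hL y (List.mem_cons_of_mem _ hy))
    rw [← nsmul_eq_mul]
    exact M.smul_of_tower_mem c (hL (c, n) (by simp))

/-- the check of one bracket -/
def chk1 (d n : ℕ) (W : List ℕ) (L : List (ℕ × List (ℕ × ℕ))) : Bool :=
  W.any (Nat.beq n) ||
    L.any (fun r => Nat.beq r.1 n && (r.2.all (fun x => W.any (Nat.beq x.2)) &&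
      Tr.isZ (Tr.add (rnT d n) (comb d r.2))))

theorem any_beq (W : List ℕ) (n : ℕ) (h : W.any (Nat.beq n) = true) : n ∈ W := by
  rw [List.any_eq_true] at h
  obtain ⟨m, hm, hmn⟩ := h
  have := Nat.eq_of_beq_eq_true hmn
  exact this ▸ hm

theorem chk1_mem {F : Type*} [Field F] [Algebra F R] (X : Fin 3 → R) (h7 : (7 : R) = 0)
    (d n : ℕ) (W : List ℕ) (L : List (ℕ × List (ℕ × ℕ))) (h : chk1 d n W L = true) :
    rn X (dec (d + 1) n) ∈ Submodule.span F ((fun n => rn X (dec (d + 1) n)) '' {n | n ∈ W}) := by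
  rw [chk1, Bool.or_eq_true] at h
  rcases h with h | h
  · exact Submodule.subset_span ⟨n, any_beq W n h, rfl⟩
  · rw [List.any_eq_true] at h
    obtain ⟨r, hr, h⟩ := h
    rw [Bool.and_eq_true, Bool.and_eq_true] at h
    obtain ⟨h1, h2, h3⟩ := h
    rw [List.all_eq_true] at h2
    have h4 := Tr.eval_isZ X h7 _ h3
    rw [Tr.eval_add, eval_rnT X h7] at h4
    rw [eq_neg_of_add_eq_zero_left h4]
    refine Submodule.neg_mem _ (eval_comb_mem X h7 d _ _ ?_)
    intro x hx
    exact Submodule.subset_span ⟨x.2, any_beq W x.2 (h2 x hx), rfl⟩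

end rn

/-- codes of the basis words of length `d` -/
def WD : ℕ → List ℕ
  | 1 => [0, 1, 2]
  | 2 => [4, 8, 9]
  | 3 => [38, 37, 34, 36, 33, 17, 32, 16]
  | 4 => [154, 153, 149, 138, 152, 137, 146, 148, 145, 133, 69, 136, 144, 132, 129, 68, 128, 64]
  | 5 => [618, 617, 614, 613, 598, 597, 554, 616, 553, 610, 550, 612, 609, 549, 585, 594, 582, 596, 593, 581,
   533, 277, 552, 546, 608, 548, 584, 545, 578, 530, 592, 580, 532, 577, 529, 517, 276, 273, 544, 514,
   576, 528, 516, 513, 272, 257, 512, 256]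
  | 6 => [2474, 2473, 2470, 2469, 2457, 2454, 2453, 2393, 2389, 2218, 2472, 2217, 2466, 2214, 2442, 2468, 2456, 2465, 2213, 2441,
   2201, 2450, 2438, 2198, 2342, 2452, 2392, 2449, 2437, 2197, 2341, 2377, 2329, 2386, 2374, 2388, 2385, 2373, 2325, 2133,
   1109, 2216, 2210, 2464, 2212, 2440, 2200, 2209, 2185, 2434, 2194, 2338, 2182, 2448, 2436, 2196, 2340, 2376, 2328, 2433,
   2193, 2337, 2181, 2313, 2121, 2370, 2322, 2384, 2372, 2324, 2132, 2369, 2321, 2129, 2309, 2117, 2069, 1108, 1105, 2208,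
   2184, 2178, 2432, 2192, 2336, 2180, 2312, 2120, 2177, 2057, 2306, 2114, 2368, 2320, 2128, 2308, 2116, 2068, 2305, 2113,
   2065, 2053, 1104, 1092, 1089, 2176, 2056, 2304, 2112, 2064, 2052, 2049, 1088, 1028, 2048, 1024]
  | 7 => [9898, 9897, 9894, 9882, 9893, 9881, 9878, 9830, 9818, 9877, 9829, 9817, 9814, 9574, 9813, 9573, 9558, 9557, 8874, 9896,
   8873, 9890, 8870, 9866, 8858, 9892, 9880, 9889, 8869, 9865, 8857, 9769, 9874, 9826, 9862, 8854, 9766, 8806, 9802, 9754,
   9876, 9828, 9816, 9873, 9825, 9861, 8853, 9765, 8805, 9801, 9753, 8793, 9369, 9810, 9570, 9798, 9750, 8790, 9366, 9318,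
   9812, 9572, 9809, 9569, 9797, 9749, 8789, 9365, 9509, 9317, 9545, 9497, 9554, 9542, 9494, 9556, 9553, 9541, 9493, 9301,
   8533, 4437, 8872, 8866, 8842, 9888, 8868, 9864, 8856, 9768, 8865, 8841, 9858, 8850, 9762, 8802, 8838, 8742, 9738, 8778,
   9872, 9824, 9860, 8852, 9764, 8804, 9800, 9752, 8792, 9368, 9857, 8849, 9761, 8801, 8837, 8741, 9737, 8777, 9353, 8729,
   9794, 9746, 8786, 9362, 9506, 9314, 9734, 8774, 9350, 8726, 9808, 9568, 9796, 9748, 8788, 9364, 9508, 9316, 9544, 9496,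
   9793, 9745, 8785, 9361, 9505, 9313, 9733, 8773, 9349, 8725, 9253, 8485, 9481, 9289, 9538, 9490, 9298, 8530, 9478, 9286,
   9552, 9540, 9492, 9300, 8532, 9537, 9489, 9297, 8529, 9477, 9285, 8517, 9237, 8469, 8277, 4436, 4433, 4421, 8864, 8840,
   8834, 8738, 8714, 9856, 8848, 9760, 8800, 8836, 8740, 9736, 8776, 9352, 8728, 8833, 8737, 8713, 9730, 8770, 9346, 8722,
   9250, 8482, 8710, 9792, 9744, 8784, 9360, 9504, 9312, 9732, 8772, 9348, 8724, 9252, 8484, 9480, 9288, 9729, 8769, 9345,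
   8721, 9249, 8481, 8709, 8229, 9225, 8457, 9474, 9282, 8514, 9234, 8466, 9222, 9536, 9488, 9296, 8528, 9476, 9284, 8516,
   9236, 8468, 8276, 9473, 9281, 8513, 9233, 8465, 8273, 9221, 8453, 8261, 8213, 4432, 4420, 4417, 4369, 4357, 8832, 8736,
   8712, 8706, 8226, 9728, 8768, 9344, 8720, 9248, 8480, 8708, 8228, 9224, 8456, 8705, 8225, 9218, 8450, 8258, 9472, 9280,
   8512, 9232, 8464, 8272, 9220, 8452, 8260, 8212, 9217, 8449, 8257, 8209, 8197, 4416, 4368, 4356, 4353, 4113, 8704, 8224,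
   8194, 9216, 8448, 8256, 8208, 8196, 8193, 4352, 4112, 4097, 8192, 4096]
  | _ => []

/-- the relations: `(w, L)` means that the bracket of `w` plus the combination `L` is zero -/
def RD : ℕ → List (ℕ × List (ℕ × ℕ))
  | 2 => [(0, []), (1, [(1, 4)]), (5, []), (2, [(1, 8)]), (6, [(1, 9)]), (10, [])]
  | 3 => [(18, [(1, 36), (6, 33)])]
  | 4 => [(66, [(1, 144), (5, 132), (1, 129)]), (65, [(6, 68)]), (70, [(6, 148), (2, 145), (6, 133)]),
   (130, [(6, 136)]), (134, [(1, 146), (6, 152), (6, 137)]), (150, [(6, 153)])]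
  | 5 => [(258, [(1, 576), (4, 528), (3, 516), (6, 513)]),
   (274, [(6, 592), (2, 580), (1, 517), (5, 529)]),
   (518, [(2, 584), (6, 608), (6, 545), (6, 578)]),
   (278, [(1, 596), (4, 593), (3, 581), (6, 533)]),
   (534, [(6, 594), (1, 612), (6, 549), (2, 585), (5, 609)]),
   (586, [(1, 616), (6, 553), (5, 610), (1, 550)])]
  | 6 => [(1026, [(1, 2304), (3, 2112), (6, 2064), (3, 2052), (1, 2049)]),
   (1025, [(1, 1088), (5, 1028)]),
   (1090, [(6, 2368), (2, 2320), (1, 2128), (3, 2116), (2, 2065), (6, 2053), (1, 2068)]),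
   (1030, [(6, 2368), (3, 2320), (4, 2308), (2, 2305), (3, 2065), (4, 2113), (6, 2053)]),
   (2050, [(1, 2176), (5, 2056)]),
   (2066, [(1, 2336), (6, 2180), (6, 2312), (6, 2057), (5, 2120), (1, 2192), (1, 2177), (1, 2114)]),
   (2054, [(3, 2336), (6, 2432), (4, 2312), (1, 2306), (6, 2057)]),
   (1029, [(6, 1104), (4, 1089), (3, 1092)]),
   (1106, [(1, 2384), (4, 2372), (3, 2324), (5, 2132), (1, 2069), (3, 2129), (4, 2117)]),
   (1094, [(1, 2384), (5, 2372), (6, 2369), (4, 2321), (6, 2309), (5, 2117), (1, 2069)]),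
   (2130, [(6, 2376), (1, 2448), (6, 2196), (2, 2340), (5, 2436), (6, 2121), (6, 2337), (1, 2433), (1, 2193)]),
   (2310, [(6, 2328), (1, 2340), (6, 2313)]),
   (2118, [(6, 2376), (1, 2448), (1, 2340), (6, 2436), (1, 2337), (6, 2313), (1, 2322), (6, 2328), (6, 2121)]),
   (2070, [(5, 2376), (1, 2448), (4, 2337), (5, 2433), (6, 2181), (5, 2313), (1, 2370)]),
   (2058, [(6, 2208), (4, 2178), (3, 2184)]),
   (2314, [(6, 2464), (2, 2440), (1, 2185), (5, 2338), (6, 2182)]),
   (2122, [(6, 2440), (1, 2464), (6, 2212), (3, 2200), (4, 2194), (1, 2185), (6, 2209), (2, 2338), (5, 2434)]),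
   (1093, [(1, 1108), (5, 1105)]),
   (1110, [(6, 2388), (4, 2385), (1, 2373), (4, 2325), (6, 2133)]),
   (2326, [(6, 2392), (1, 2341), (6, 2377), (1, 2374), (1, 2452), (5, 2329)]),
   (2134, [(1, 2386), (6, 2392), (6, 2197), (3, 2341), (4, 2437), (4, 2377), (3, 2449)]),
   (2378, [(1, 2456), (6, 2213), (2, 2201), (5, 2450), (6, 2198)]),
   (2330, [(1, 2456), (6, 2468), (6, 2465), (1, 2213), (3, 2441), (6, 2201), (6, 2438), (5, 2342)]),
   (2186, [(1, 2216), (5, 2210)]),
   (2202, [(1, 2442), (1, 2472), (1, 2217), (5, 2466), (5, 2214)]),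
   (2390, [(1, 2453), (5, 2393)]), (2394, [(6, 2469), (4, 2454), (3, 2457)]),
   (2458, [(1, 2473), (5, 2470)])]
  | 7 => [(4098, [(1, 9216), (2, 8448), (4, 8208), (5, 8196), (3, 8256), (6, 8193)]),
   (4354, [(6, 9472), (2, 9280), (2, 8512), (1, 8464), (6, 8260), (5, 8209), (1, 8197), (5, 8212)]),
   (4114, [(6, 9472), (3, 9280), (1, 8512), (4, 9232), (2, 9220), (3, 8260), (4, 8464), (6, 8212), (3, 8257), (5, 8449), (4, 8209), (1, 8197)]),
   (8210, [(2, 9344), (4, 9248), (4, 8480), (1, 8768), (1, 9224), (3, 8456), (6, 8225), (1, 8705), (6, 8450), (6, 8228)]),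
   (8198, [(4, 9344), (6, 9728), (1, 9248), (4, 9224), (1, 8705), (5, 8225), (6, 9218)]),
   (4418, [(1, 9536), (4, 9488), (3, 9296), (4, 8528), (3, 8276), (6, 8516), (4, 8273), (3, 8261), (6, 8213), (1, 8468)]),
   (4370, [(1, 9536), (5, 9488), (6, 9476), (4, 9284), (6, 9236), (6, 8528), (1, 8276), (1, 8513), (3, 8465), (2, 8516), (2, 8261), (5, 8468), (6, 8213), (1, 8453)]),
   (4358, [(1, 9536), (5, 9488), (6, 9296), (4, 9284), (6, 9473), (5, 9233), (2, 9281), (3, 8465), (1, 8273), (1, 8513), (1, 9221), (6, 9236), (2, 8261), (6, 8213)]),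
   (8274, [(6, 9504), (6, 9348), (3, 9732), (6, 8724), (5, 9252), (1, 9480), (6, 8514), (1, 8784), (5, 9360), (2, 9744), (2, 8484), (5, 8772), (2, 8457), (2, 8769), (5, 9345), (3, 8481), (2, 9729), (6, 8229), (1, 8709)]),
   (8454, [(6, 9504), (1, 9792), (6, 9744), (2, 9348), (6, 9252), (2, 9288), (6, 9312), (6, 9249), (1, 9225), (6, 8457), (6, 9234)]),
   (8262, [(5, 9504), (1, 9792), (2, 9348), (6, 9732), (6, 9252), (1, 9480), (6, 9282), (6, 9312), (2, 9288), (6, 8721), (1, 8709), (2, 9345), (6, 8229), (1, 9225), (4, 9249), (1, 8457), (1, 8769), (5, 8481)]),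
   (8214, [(4, 9504), (1, 9792), (3, 9480), (6, 9474), (6, 9345), (5, 9729), (6, 8229), (2, 9225), (1, 9249)]),
   (8230, [(1, 8848), (6, 8740), (3, 9736), (6, 9760), (6, 8800), (1, 8728), (3, 8737), (5, 8713), (6, 8833), (3, 9346), (5, 9730), (6, 9250), (5, 9352), (6, 8710)]),
   (9226, [(1, 9856), (6, 8848), (5, 9760), (1, 8800), (6, 8728), (1, 8740), (6, 8713), (2, 9352), (1, 8710), (5, 9250)]),
   (8458, [(1, 9760), (6, 9856), (1, 8848), (5, 8800), (2, 8776), (1, 8737), (6, 8713), (1, 8722), (6, 8728), (5, 8482), (5, 9352), (2, 9736)]),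
   (4434, [(6, 9552), (4, 9540), (1, 9492), (4, 9300), (1, 8277), (3, 8529), (6, 8517), (3, 8469)]),
   (4422, [(6, 9552), (3, 9540), (4, 9492), (2, 9300), (1, 9537), (4, 9489), (5, 8529), (6, 9237), (3, 9285), (4, 8469), (3, 8517), (1, 8277)]),
   (8518, [(1, 9544), (6, 9748), (6, 9508), (2, 9796), (6, 9505), (1, 9793), (6, 8785), (2, 9361), (5, 9745), (6, 9253), (2, 9289), (5, 9313), (6, 8485), (1, 9733), (1, 8773), (6, 9298), (6, 9496), (6, 9808), (2, 9316)]),
   (9238, [(6, 9568), (5, 9508), (2, 9496), (1, 9808), (5, 9313), (2, 9361), (6, 9253), (1, 9481), (6, 9478)]),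
   (8470, [(1, 9544), (6, 9568), (6, 9508), (1, 9796), (4, 9505), (2, 9793), (2, 9361), (5, 9745), (2, 9349), (5, 9253), (1, 9481), (2, 9289), (5, 9313), (6, 8485), (6, 9490), (1, 9496)]),
   (8278, [(2, 9544), (6, 9568), (1, 9505), (3, 9793), (6, 9349), (4, 9733), (6, 8725), (4, 9253), (3, 9481), (6, 9538)]),
   (9254, [(6, 9857), (2, 9761), (5, 9764), (5, 9353), (2, 9752), (1, 9362), (6, 9824), (1, 8741), (1, 9737), (6, 9314), (1, 9872), (6, 9734), (6, 8729)]),
   (8486, [(2, 8801), (5, 9746), (2, 9752), (6, 9824), (1, 8852), (5, 8804), (5, 9368), (6, 8774), (5, 8777), (6, 8837), (2, 9362), (6, 9506), (1, 9800), (1, 8792), (1, 9794), (1, 9350), (1, 8741), (6, 9734)]),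
   (9482, [(6, 9824), (1, 8741), (5, 9506), (5, 8729), (2, 9800), (1, 8726)]),
   (9290, [(6, 9824), (1, 9872), (1, 9860), (6, 8852), (4, 9764), (2, 8804), (1, 9752), (2, 9368), (6, 8792), (1, 8741), (6, 8777), (1, 8801), (6, 8849), (1, 8774), (6, 8729), (5, 9314)]),
   (9354, [(2, 9864), (3, 9768), (5, 9762), (2, 9858), (1, 8841), (6, 8865), (3, 8802), (4, 8850), (6, 8742), (1, 8838), (6, 9738), (2, 9888), (2, 8868), (5, 8856)]),
   (8730, [(5, 9864), (2, 8841), (2, 9762), (6, 8865), (5, 8742), (1, 9888), (6, 9738)]),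
   (4438, [(1, 9556), (2, 9553), (3, 9541), (4, 9493), (5, 9301), (6, 8533)]),
   (9302, [(6, 9812), (1, 9572), (2, 9365), (4, 9509), (1, 9545), (4, 9569), (6, 9542), (4, 9317), (3, 9497), (3, 9809)]),
   (8534, [(6, 9554), (6, 9812), (2, 9572), (6, 8789), (4, 9365), (3, 9749), (1, 9509), (6, 9797), (4, 9545), (3, 9569)]),
   (9510, [(4, 9828), (6, 9861), (1, 9765), (1, 8805), (5, 9369), (6, 8793), (6, 9570), (1, 9876), (2, 9816), (6, 9801), (6, 9798), (1, 9810), (1, 9825), (2, 9753), (1, 9366), (6, 9750)]),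
   (9546, [(1, 9876), (3, 9816), (4, 9828), (6, 8853), (3, 8805), (4, 8793), (5, 9570), (1, 8790)]),
   (9498, [(3, 9828), (1, 9876), (3, 9816), (1, 9825), (5, 9861), (1, 8853), (3, 9765), (2, 9753), (6, 8793), (3, 9369), (5, 9570), (5, 9798), (2, 9810), (6, 9750), (2, 9366)]),
   (8794, [(6, 9802), (1, 9892), (6, 8869), (2, 8857), (2, 9826), (5, 9880), (5, 8806)]),
   (9370, [(1, 9826), (6, 9880), (1, 8869), (6, 8857), (6, 9874), (3, 9865), (1, 9889), (3, 9769), (5, 8854), (4, 9766), (3, 9862), (2, 8806), (6, 9754), (1, 9892)]),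
   (9770, [(6, 9896), (1, 8873), (3, 9890), (4, 9866), (5, 8870), (1, 8858)])]
  | _ => []

/-- the check of degree `d + 1` (lengths: `W` has words of length `d`, the brackets length
`d + 1`) -/
def chk (d : ℕ) : Bool :=
  (WD d).all fun n => [0, 1, 2].all fun k => chk1 d (k + 4 * n) (WD (d + 1)) (RD (d + 1))

theorem chk_1 : chk 1 = true := by decide +kernel
theorem chk_2 : chk 2 = true := by decide +kernel
theorem chk_3 : chk 3 = true := by decide +kernel
theorem chk_4 : chk 4 = true := by decide +kernel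
theorem chk_5 : chk 5 = true := by decide +kernel
theorem chk_6 : chk 6 = true := by decide +kernel

section main

variable {R : Type*} [Ring R]

theorem dec_bracket (d k n : ℕ) (hk : k < 3) : dec (d + 1) (k + 4 * n) = dig k :: dec d n := by
  rw [dec]
  congr 1
  · unfold dig
    rw [show (k + 4 * n) % 4 = k % 4 by omega]
  · rw [show (k + 4 * n) / 4 = n by omega]

theorem span_step {F : Type*} [Field F] [Algebra F R] (X : Fin 3 → R) (h7 : (7 : R) = 0) (d : ℕ)
    (hd : 1 ≤ d) (hc : chk d = true)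
    (h : LieD F X d ≤ Submodule.span F ((fun n => rn X (dec d n)) '' {n | n ∈ WD d})) :
    LieD F X (d + 1) ≤
      Submodule.span F ((fun n => rn X (dec (d + 1) n)) '' {n | n ∈ WD (d + 1)}) := by
  rw [LieD_succ X d hd, Submodule.span_le]
  rintro _ ⟨k, l, hl, rfl⟩
  have h1 := h hl
  clear hl h
  refine Submodule.span_induction
    (p := fun l _ => X k * l - l * X k ∈
      Submodule.span F ((fun n => rn X (dec (d + 1) n)) '' {n | n ∈ WD (d + 1)}))
    ?_ ?_ ?_ ?_ h1
  · rintro _ ⟨n, hn, rfl⟩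
    rw [chk, List.all_eq_true] at hc
    have h2 := hc n hn
    rw [List.all_eq_true] at h2
    have h3 := h2 k.val (by fin_cases k <;> simp)
    have h4 := chk1_mem (F := F) X h7 d _ _ _ h3
    rw [dec_bracket d k.val n k.isLt, rn_cons X _ _ (by
      cases d with
      | zero => omega
      | succ d => simp [dec])] at h4
    have h5 : dig k.val = k := by fin_cases k <;> rfl
    rw [h5] at h4
    exact h4
  · simp
  · intro x y _ _ hx hy
    have e : X k * (x + y) - (x + y) * X k = (X k * x - x * X k) + (X k * y - y * X k) := by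
      noncomm_ring
    rw [e]
    exact Submodule.add_mem _ hx hy
  · intro c x _ hx
    have e : X k * (c • x) - (c • x) * X k = c • (X k * x - x * X k) := by
      rw [mul_smul_comm, smul_mul_assoc, smul_sub]
    rw [e]
    exact Submodule.smul_mem _ c hx

/-- **Block LIE.** -/
theorem lieD_le {F : Type*} [Field F] [Algebra F R] (X : Fin 3 → R) (h7 : (7 : R) = 0) (d : ℕ)
    (h1 : 1 ≤ d) (h2 : d ≤ 7) :
    LieD F X d ≤ Submodule.span F ((fun n => rn X (dec d n)) '' {n | n ∈ WD d}) := by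
  have s1 : LieD F X 1 ≤ Submodule.span F ((fun n => rn X (dec 1 n)) '' {n | n ∈ WD 1}) := by
    rw [LieD_one, Submodule.span_le]
    rintro _ ⟨k, rfl⟩
    refine Submodule.subset_span ⟨k.val, ?_, ?_⟩
    · fin_cases k <;> simp [WD]
    · fin_cases k <;> rfl
  have s2 := span_step X h7 1 le_rfl chk_1 s1
  have s3 := span_step X h7 2 (by norm_num) chk_2 s2
  have s4 := span_step X h7 3 (by norm_num) chk_3 s3
  have s5 := span_step X h7 4 (by norm_num) chk_4 s4
  have s6 := span_step X h7 5 (by norm_num) chk_5 s5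
  have s7 := span_step X h7 6 (by norm_num) chk_6 s6
  interval_cases d
  · exact s1
  · exact s2
  · exact s3
  · exact s4
  · exact s5
  · exact s6
  · exact s7

/-- the reduced list: degree and code -/
def LB : List (ℕ × ℕ) :=
  [(1, 0), (2, 9)] ++ (WD 3).map (fun n => (3, n)) ++ (WD 4).map (fun n => (4, n)) ++
    (WD 5).map (fun n => (5, n)) ++ (WD 6).map (fun n => (6, n)) ++ (WD 7).map (fun n => (7, n))

theorem LB_length : LB.length = 504 := by decide +kernel

/-- degree of the `i`-th basis element -/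
def lbDeg (i : Fin 504) : ℕ := (LB.getD i.val (0, 0)).1

/-- the word of the `i`-th basis element -/
def lbWord (i : Fin 504) : List (Fin 3) :=
  dec (LB.getD i.val (0, 0)).1 (LB.getD i.val (0, 0)).2

/-- the `i`-th basis element -/
def lb (X : Fin 3 → R) (i : Fin 504) : R := rn X (lbWord i)

theorem LB_sorted : LB.Pairwise (fun x y => x.1 ≤ y.1) := by
  have h : ∀ L : List (ℕ × ℕ), ((L.map Prod.fst).zip (L.map Prod.fst).tail).all
      (fun x => Nat.ble x.1 x.2) = true → L.Pairwise (fun x y => x.1 ≤ y.1) := by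
    intro L hL
    have h1 : List.IsChain (fun x y : ℕ × ℕ => x.1 ≤ y.1) L := by
      induction L with
      | nil => exact List.IsChain.nil
      | cons a L ih =>
        cases L with
        | nil => exact List.IsChain.singleton a
        | cons b L =>
          simp only [List.map_cons, List.tail_cons, List.zip_cons_cons, List.all_cons,
            Bool.and_eq_true] at hL ih
          exact List.IsChain.cons_cons (Nat.le_of_ble_eq_true hL.1) (ih hL.2)
    have : IsTrans (ℕ × ℕ) (fun x y : ℕ × ℕ => x.1 ≤ y.1) := ⟨fun _ _ _ h1 h2 => h1.trans h2⟩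
    exact h1.pairwise
  exact h LB (by decide +kernel)

theorem LB_getD (i : ℕ) (h : i < LB.length) : LB.getD i (0, 0) = LB[i] := by
  rw [List.getD_eq_getElem?_getD, List.getElem?_eq_getElem h, Option.getD_some]

theorem lbDeg_mono : Monotone lbDeg := by
  intro i j hij
  rcases eq_or_lt_of_le hij with rfl | hlt
  · exact le_rfl
  · have hi : i.val < LB.length := by rw [LB_length]; exact i.isLt
    have hj : j.val < LB.length := by rw [LB_length]; exact j.isLt
    unfold lbDeg
    rw [LB_getD _ hi, LB_getD _ hj]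
    exact List.pairwise_iff_getElem.1 LB_sorted i.val j.val hi hj hlt

theorem lb_mem (X : Fin 3 → R) (d n : ℕ) (h : (d, n) ∈ LB) :
    rn X (dec d n) ∈ lb X '' {i | lbDeg i = d} := by
  obtain ⟨i, hi, hin⟩ := List.getElem_of_mem h
  have hi' : i < 504 := by rw [← LB_length]; exact hi
  refine ⟨⟨i, hi'⟩, ?_, ?_⟩
  · rw [Set.mem_ofPred_eq, lbDeg, LB_getD i hi, hin]
  · rw [lb, lbWord, LB_getD i hi, hin]

theorem WD_mem_LB (d : ℕ) (h1 : 3 ≤ d) (h2 : d ≤ 7) (n : ℕ) (hn : n ∈ WD d) : (d, n) ∈ LB := by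
  unfold LB
  simp only [List.mem_append, List.mem_map, Prod.mk.injEq]
  interval_cases d
  · exact Or.inl (Or.inl (Or.inl (Or.inl (Or.inr ⟨n, hn, rfl, rfl⟩))))
  · exact Or.inl (Or.inl (Or.inl (Or.inr ⟨n, hn, rfl, rfl⟩)))
  · exact Or.inl (Or.inl (Or.inr ⟨n, hn, rfl, rfl⟩))
  · exact Or.inl (Or.inr ⟨n, hn, rfl, rfl⟩)
  · exact Or.inr ⟨n, hn, rfl, rfl⟩

/-- **Block LIE, packaged for `base_of_sorted`.** -/
theorem KD_le {F : Type*} [Field F] [Algebra F R] (X : Fin 3 → R) (h7 : (7 : R) = 0) (d : ℕ)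
    (h1 : 1 ≤ d) (h2 : d ≤ 7) :
    KD F X d ≤ Submodule.span F (lb X '' {i | lbDeg i = d}) := by
  unfold KD
  split_ifs with hd1 hd2
  · subst hd1
    rw [Submodule.span_le, Set.singleton_subset_iff]
    exact Submodule.subset_span (lb_mem X 1 0 (by unfold LB; simp))
  · subst hd2
    rw [Submodule.span_le, Set.singleton_subset_iff]
    exact Submodule.subset_span (lb_mem X 2 9 (by unfold LB; simp))
  · refine (lieD_le X h7 d h1 h2).trans ?_
    refine Submodule.span_mono ?_
    rintro _ ⟨n, hn, rfl⟩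
    exact lb_mem X d n (WD_mem_LB d (by omega) h2 n hn)

end main

end Pool.Agent.Work.MP_bde882_al.H69
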