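import Pool.Agent.Work.MP_bde882_al_h69.Enum

/-!
# The search with candidates in classes and groups

Candidates: a list of classes `(d, gs)`, `gs` a list of groups `(g, es)`. Whole classes are skipped
(`skp`) or end the search (`stp`), whole groups are skipped by `grp`.
-/

set_option autoImplicit false

namespace Pool.Agent.Work.MP_bde882_al.H69

theorem Pick.drop_left {α : Type*} {k : ℕ} (P : α → Prop) (A B l : List α)
    (h : Pick (k + 1) (A ++ B) l) (hA : ∀ x ∈ A, ¬ P x) (hl : ∀ x ∈ l.head?, P x) :
    Pick (k + 1) B l := by
  induction A with
  | nil => exact h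
  | cons a A ih =>
    rw [List.cons_append] at h
    rcases h.cases_cons with h | ⟨l', rfl, _⟩
    · exact ih h fun x hx => hA x (List.mem_cons_of_mem _ hx)
    · exact absurd (hl a (by simp)) (hA a List.mem_cons_self)

section dfs3

variable {δ γ ε τ σ : Type*}

/-- the list of all candidates with the headers of the class and of the group -/
def flat3 (cs : List (δ × List (γ × List ε))) : List (δ × γ × ε) :=
  cs.flatMap fun c => (flat c.2).map fun x => (c.1, x)

theorem flat3_cons (d : δ) (gs : List (γ × List ε)) (cs : List (δ × List (γ × List ε))) :
    flat3 ((d, gs) :: cs) = (flat gs).map (fun x => (d, x)) ++ flat3 cs := by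
  simp [flat3]

variable (stp skp : ℕ → δ → τ → Bool) (grp : ℕ → γ → τ → (τ → Bool) → Bool)
  (elt : ℕ → γ → ε → τ → σ → (τ → σ → Bool) → Bool) (fin : τ → σ → Bool)

/-- inner loop, over the elements of one group -/
def lpE (rec : List (δ × List (γ × List ε)) → τ → σ → Bool) (k : ℕ) (d : δ)
    (cs : List (δ × List (γ × List ε))) (g : γ) (gs : List (γ × List ε))
    (t : τ) (s : σ) (l : List ε) : Bool :=
  @List.rec ε (fun _ => Bool) true (fun e es ih => @Bool.rec (fun _ => Bool) false ih
    (elt k g e t s (fun t' s' => rec ((d, (g, e :: es) :: gs) :: cs) t' s'))) l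

/-- middle loop, over the groups -/
def lpG (rec : List (δ × List (γ × List ε)) → τ → σ → Bool) (k : ℕ) (d : δ)
    (cs : List (δ × List (γ × List ε))) (t : τ) (s : σ) (l : List (γ × List ε)) : Bool :=
  @List.rec (γ × List ε) (fun _ => Bool) true (fun g gs ih => @Bool.rec (fun _ => Bool) false ih
    (grp k g.1 t (fun t' => lpE elt rec k d cs g.1 gs t' s g.2))) l

/-- outer loop, over the classes -/
def lpD (rec : List (δ × List (γ × List ε)) → τ → σ → Bool) (k : ℕ)
    (t : τ) (s : σ) (l : List (δ × List (γ × List ε))) : Bool :=
  @List.rec (δ × List (γ × List ε)) (fun _ => Bool) true (fun c cs ih =>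
    @Bool.rec (fun _ => Bool)
      (@Bool.rec (fun _ => Bool)
        (@Bool.rec (fun _ => Bool) false ih (lpG grp elt rec k c.1 cs t s c.2))
        ih (skp k c.1 t))
      true (stp k c.1 t)) l

/-- the search -/
def dfs3 (n : ℕ) : List (δ × List (γ × List ε)) → τ → σ → Bool :=
  @Nat.rec (fun _ => List (δ × List (γ × List ε)) → τ → σ → Bool) (fun _ t s => fin t s)
    (fun k ih cs t s => lpD stp skp grp elt ih (Nat.succ k) t s cs) n

theorem lpE_cons (rec : List (δ × List (γ × List ε)) → τ → σ → Bool) (k : ℕ) (d : δ)
    (cs : List (δ × List (γ × List ε))) (g : γ)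
    (gs : List (γ × List ε)) (t : τ) (s : σ) (e : ε) (es : List ε) :
    lpE elt rec k d cs g gs t s (e :: es)
      = and (elt k g e t s (fun t' s' => rec ((d, (g, e :: es) :: gs) :: cs) t' s'))
        (lpE elt rec k d cs g gs t s es) := by
  change @Bool.rec (fun _ => Bool) false (lpE elt rec k d cs g gs t s es)
    (elt k g e t s (fun t' s' => rec ((d, (g, e :: es) :: gs) :: cs) t' s')) = _
  cases elt k g e t s (fun t' s' => rec ((d, (g, e :: es) :: gs) :: cs) t' s') <;> rfl

theorem lpG_cons (rec : List (δ × List (γ × List ε)) → τ → σ → Bool) (k : ℕ) (d : δ)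
    (cs : List (δ × List (γ × List ε))) (t : τ) (s : σ)
    (g : γ × List ε) (gs : List (γ × List ε)) :
    lpG grp elt rec k d cs t s (g :: gs)
      = and (grp k g.1 t (fun t' => lpE elt rec k d cs g.1 gs t' s g.2))
        (lpG grp elt rec k d cs t s gs) := by
  change @Bool.rec (fun _ => Bool) false (lpG grp elt rec k d cs t s gs)
    (grp k g.1 t (fun t' => lpE elt rec k d cs g.1 gs t' s g.2)) = _
  cases grp k g.1 t (fun t' => lpE elt rec k d cs g.1 gs t' s g.2) <;> rfl

theorem lpD_cons (rec : List (δ × List (γ × List ε)) → τ → σ → Bool) (k : ℕ) (t : τ) (s : σ)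
    (c : δ × List (γ × List ε)) (cs : List (δ × List (γ × List ε))) :
    lpD stp skp grp elt rec k t s (c :: cs)
      = or (stp k c.1 t) (and (or (skp k c.1 t) (lpG grp elt rec k c.1 cs t s c.2))
        (lpD stp skp grp elt rec k t s cs)) := by
  change @Bool.rec (fun _ => Bool)
      (@Bool.rec (fun _ => Bool)
        (@Bool.rec (fun _ => Bool) false (lpD stp skp grp elt rec k t s cs)
          (lpG grp elt rec k c.1 cs t s c.2))
        (lpD stp skp grp elt rec k t s cs) (skp k c.1 t))
      true (stp k c.1 t) = _
  cases stp k c.1 t
  · cases skp k c.1 t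
    · cases lpG grp elt rec k c.1 cs t s c.2 <;> rfl
    · rfl
  · rfl

theorem dfs3_succ (k : ℕ) (cs : List (δ × List (γ × List ε))) (t : τ) (s : σ) :
    dfs3 stp skp grp elt fin (k + 1) cs t s
      = lpD stp skp grp elt (dfs3 stp skp grp elt fin k) (k + 1) t s cs := rfl

variable (feas : ℕ → δ → γ → τ → Bool) (upd : ℕ → γ → τ → τ)
  (uel : ℕ → γ → ε → τ → τ) (ext : ℕ → γ → ε → τ → σ → σ)

/-- the path of the bookkeeping state along a sequence is accepted -/
def Path3 : ℕ → τ → List (δ × γ × ε) → Prop
  | _, _, [] => True
  | k, t, x :: l => feas k x.1 x.2.1 t = true ∧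
      Path3 (k - 1) (uel k x.2.1 x.2.2 (upd k x.2.1 t)) l

/-- the final bookkeeping state -/
def endT3 : ℕ → τ → List (δ × γ × ε) → τ
  | _, t, [] => t
  | k, t, x :: l => endT3 (k - 1) (uel k x.2.1 x.2.2 (upd k x.2.1 t)) l

/-- the final data state -/
def endS3 : ℕ → τ → σ → List (δ × γ × ε) → σ
  | _, _, s, [] => s
  | k, t, s, x :: l =>
    endS3 (k - 1) (uel k x.2.1 x.2.2 (upd k x.2.1 t))
      (ext k x.2.1 x.2.2 (upd k x.2.1 t) s) l

variable {stp skp grp elt fin feas upd uel ext}

theorem dfs3_sound (le : δ → δ → Prop) (hle : ∀ d, le d d)
    (hstp : ∀ k d d' g t, stp k d t = true → le d d' → feas k d' g t = false)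
    (hskp : ∀ k d g t, skp k d t = true → feas k d g t = false)
    (hgrp : ∀ k d g t K, stp k d t = false → skp k d t = false →
      grp k g t K = cond (feas k d g t) (K (upd k g t)) true)
    (helt : ∀ k g e t s K, elt k g e t s K = K (uel k g e t) (ext k g e t s))
    (k : ℕ) (cs : List (δ × List (γ × List ε))) (hcs : (cs.map Prod.fst).Pairwise le)
    (t : τ) (s : σ) (h : dfs3 stp skp grp elt fin k cs t s = true)
    (l : List (δ × γ × ε)) (hl : Pick k (flat3 cs) l) (hp : Path3 feas upd uel k t l) :
    fin (endT3 upd uel k t l) (endS3 upd uel ext k t s l) = true := by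
  induction k generalizing cs t s l with
  | zero =>
    have : l = [] := List.length_eq_zero_iff.1 hl.length
    subst this
    exact h
  | succ k ihk =>
    -- the first entry is feasible
    have hfst : ∀ x ∈ l.head?, feas (k + 1) x.1 x.2.1 t = true := by
      intro x hx
      cases l with
      | nil => simp at hx
      | cons y l =>
        simp only [List.head?_cons, Option.mem_def, Option.some.injEq] at hx
        subst hx
        exact hp.1
    rw [dfs3_succ] at h
    induction cs with
    | nil =>
      exfalso
      have h1 := hl.length
      have h2 := hl.mem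
      cases l with
      | nil => simp at h1
      | cons x l =>
        have h3 := h2 x List.mem_cons_self
        simp [flat3] at h3
    | cons c cs ihc =>
      obtain ⟨d, gs⟩ := c
      rw [lpD_cons, Bool.or_eq_true, Bool.and_eq_true] at h
      have hcs' : (∀ d' ∈ cs.map Prod.fst, le d d') ∧ (cs.map Prod.fst).Pairwise le := by
        rw [List.map_cons, List.pairwise_cons] at hcs
        exact hcs
      by_cases hs : stp (k + 1) d t = true
      · -- nothing left is feasible
        exfalso
        have h1 := hl.length
        have h2 := hl.mem
        cases l with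
        | nil => simp at h1
        | cons x l =>
          have h3 := h2 x List.mem_cons_self
          have h4 : le d x.1 := by
            rw [flat3_cons, List.mem_append] at h3
            rcases h3 with h3 | h3
            · obtain ⟨e, _, rfl⟩ := List.mem_map.1 h3
              exact hle d
            · rw [flat3, List.mem_flatMap] at h3
              obtain ⟨y, hy, h3⟩ := h3
              obtain ⟨e, _, rfl⟩ := List.mem_map.1 h3
              exact hcs'.1 y.1 (List.mem_map_of_mem hy)
          have h5 := hstp (k + 1) d x.1 x.2.1 t hs h4
          rw [hfst x (by simp)] at h5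
          exact Bool.noConfusion h5
      have hsf : stp (k + 1) d t = false := by
        cases hh : stp (k + 1) d t
        · rfl
        · exact absurd hh hs
      rcases h with h | h
      · exact absurd h hs
      obtain ⟨h1, h2⟩ := h
      by_cases hk : skp (k + 1) d t = true
      · -- the class is skipped
        refine ihc hcs'.2 h2 ?_
        rw [flat3_cons] at hl
        refine Pick.drop_left (fun x => feas (k + 1) x.1 x.2.1 t = true) _ _ l hl ?_ hfst
        intro x hx
        obtain ⟨y, _, rfl⟩ := List.mem_map.1 hx
        rw [hskp (k + 1) d y.1 t hk]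
        exact Bool.false_ne_true
      have hkf : skp (k + 1) d t = false := by
        cases hh : skp (k + 1) d t
        · rfl
        · exact absurd hh hk
      rw [hkf, Bool.false_or] at h1
      -- the groups of the class
      have keyG : ∀ gs' : List (γ × List ε),
          Pick (k + 1) ((flat gs').map (fun x => (d, x)) ++ flat3 cs) l →
          lpG grp elt (dfs3 stp skp grp elt fin k) (k + 1) d cs t s gs' = true →
          Pick (k + 1) (flat3 cs) l ∨
            fin (endT3 upd uel (k + 1) t l) (endS3 upd uel ext (k + 1) t s l) = true := by
        intro gs'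
        induction gs' with
        | nil => intro hl' _; exact Or.inl (by simpa [flat] using hl')
        | cons g gs' ihg =>
          obtain ⟨g, es⟩ := g
          intro hl' hG
          rw [lpG_cons, Bool.and_eq_true] at hG
          rw [flat_cons, List.map_append, List.append_assoc] at hl'
          -- the elements of the group
          have keyE : ∀ es' : List ε,
              Pick (k + 1) ((es'.map (fun e => (g, e))).map (fun x => (d, x)) ++
                ((flat gs').map (fun x => (d, x)) ++ flat3 cs)) l →
              (feas (k + 1) d g t = true →
                lpE elt (dfs3 stp skp grp elt fin k) (k + 1) d cs g gs' (upd (k + 1) g t) s es'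
                  = true) →
              Pick (k + 1) ((flat gs').map (fun x => (d, x)) ++ flat3 cs) l ∨
                fin (endT3 upd uel (k + 1) t l) (endS3 upd uel ext (k + 1) t s l) = true := by
            intro es'
            induction es' with
            | nil => intro hl'' _; exact Or.inl hl''
            | cons e es' ihe =>
              intro hl'' hE
              rw [List.map_cons, List.map_cons, List.cons_append] at hl''
              rcases hl''.cases_cons with hl3 | ⟨l', rfl, hl3⟩
              · refine ihe hl3 ?_
                intro hf
                have := hE hf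
                rw [lpE_cons, Bool.and_eq_true] at this
                exact this.2
              · right
                obtain ⟨p1, p2⟩ := hp
                have := hE p1
                rw [lpE_cons, Bool.and_eq_true, helt] at this
                have h4 := ihk ((d, (g, e :: es') :: gs') :: cs)
                  (by rw [List.map_cons, List.pairwise_cons]; exact hcs')
                  (uel (k + 1) g e (upd (k + 1) g t))
                  (ext (k + 1) g e (upd (k + 1) g t) s) this.1 l'
                  (by
                    rw [flat3_cons, flat_cons, List.map_append, List.map_cons, List.map_cons,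
                      List.append_assoc, List.cons_append]
                    exact hl3) (by simpa using p2)
                simpa [endT3, endS3] using h4
          rcases keyE es hl' (fun hf => by
            have := hG.1
            rw [hgrp _ d _ _ _ hsf hkf, hf] at this
            exact this) with h3 | h3
          · exact ihg h3 hG.2
          · exact Or.inr h3
      rw [flat3_cons] at hl
      rcases keyG gs hl h1 with h3 | h3
      · exact ihc hcs'.2 h2 h3
      · exact h3

end dfs3

end Pool.Agent.Work.MP_bde882_al.H69
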