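import Mathlib

/-!
# Enumeration of monotone sequences by a depth first search (kernel friendly)

The candidates are given as a list of groups `(g, es)`: a header `g` and the list of elements
`es`. The search chooses `k` candidates, in the order of the list, repetitions allowed. There are
two states: `t` (bookkeeping) and `s` (the data of the computation). The steps are written in
continuation passing style, so that they may force the evaluation of the states.
-/

set_option autoImplicit false

namespace Pool.Agent.Work.MP_bde882_al.H69

/-- monotone choices with repetition from a list -/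
inductive Pick {α : Type*} : ℕ → List α → List α → Prop
  | nil (L : List α) : Pick 0 L []
  | skip {k : ℕ} {x : α} {L l : List α} : Pick k L l → Pick k (x :: L) l
  | take {k : ℕ} {x : α} {L l : List α} : Pick k (x :: L) l → Pick (k + 1) (x :: L) (x :: l)

theorem Pick.length {α : Type*} {k : ℕ} {L l : List α} (h : Pick k L l) : l.length = k := by
  induction h with
  | nil L => rfl
  | skip _ ih => exact ih
  | take _ ih => rw [List.length_cons, ih]

theorem Pick.append_left {α : Type*} {k : ℕ} {L l : List α} (M : List α) (h : Pick k L l) :
    Pick k (M ++ L) l := by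
  induction M with
  | nil => exact h
  | cons x M ih => exact Pick.skip ih

theorem Pick.mem {α : Type*} {k : ℕ} {L l : List α} (h : Pick k L l) : ∀ x ∈ l, x ∈ L := by
  induction h with
  | nil L => intro x hx; simp at hx
  | skip _ ih => intro x hx; exact List.mem_cons_of_mem _ (ih x hx)
  | take _ ih =>
    intro x hx
    rcases List.mem_cons.1 hx with rfl | hx
    · exact List.mem_cons_self
    · exact ih x hx

/-- a choice from `x :: L` whose first entry is in the list -/
theorem Pick.cases_cons {α : Type*} {k : ℕ} {x : α} {L l : List α} (h : Pick (k + 1) (x :: L) l) :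
    Pick (k + 1) L l ∨ ∃ l', l = x :: l' ∧ Pick k (x :: L) l' := by
  cases h with
  | skip h => exact Or.inl h
  | take h => exact Or.inr ⟨_, rfl, h⟩

/-- monotone functions give choices -/
theorem pick_of_monotone {α : Type*} {k : ℕ} (L : List α) (c : Fin k → Fin L.length)
    (hc : Monotone c) : Pick k L (List.ofFn fun i => L.get (c i)) := by
  induction L generalizing k with
  | nil =>
    cases k with
    | zero => exact Pick.nil _
    | succ k => exact (c 0).elim0
  | cons x L ih =>
    induction k with
    | zero => exact Pick.nil _
    | succ k ihk =>
      by_cases h0 : c 0 = 0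
      · rw [List.ofFn_succ, h0]
        refine Pick.take ?_
        exact ihk (fun i => c i.succ) (fun i j hij => hc (Fin.succ_le_succ_iff.2 hij))
      · have h1 : ∀ i, c i ≠ 0 := by
          intro i hi
          apply h0
          have := hc (Fin.zero_le i)
          rw [hi] at this
          exact Fin.le_zero_iff.1 this
        have h2 : Monotone fun i => (c i).pred (h1 i) := by
          intro i j hij
          exact Fin.pred_le_pred_iff.2 (hc hij)
        have h3 := ih (fun i => (c i).pred (h1 i)) h2
        have h4 : (List.ofFn fun i => L.get ((c i).pred (h1 i)))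
            = List.ofFn fun i => (x :: L).get (c i) := by
          congr 1
          funext i
          conv_rhs => rw [← Fin.succ_pred (c i) (h1 i)]
          rfl
        rw [h4] at h3
        exact Pick.skip h3

section dfs

variable {γ ε τ σ : Type*}

/-- the list of all candidates with their headers -/
def flat (gs : List (γ × List ε)) : List (γ × ε) := gs.flatMap fun g => g.2.map fun e => (g.1, e)

theorem flat_cons (g : γ) (es : List ε) (gs : List (γ × List ε)) :
    flat ((g, es) :: gs) = es.map (fun e => (g, e)) ++ flat gs := by
  simp [flat]

variable (stop : ℕ → γ → τ → Bool) (grp : ℕ → γ → τ → (τ → Bool) → Bool)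
  (elt : ℕ → γ → ε → τ → σ → (τ → σ → Bool) → Bool) (fin : τ → σ → Bool)

/-- inner loop, over the elements of one group -/
def loopE (rec : List (γ × List ε) → τ → σ → Bool) (k : ℕ) (g : γ) (gs : List (γ × List ε))
    (t : τ) (s : σ) (l : List ε) : Bool :=
  @List.rec ε (fun _ => Bool) true (fun e es ih => @Bool.rec (fun _ => Bool) false ih
    (elt k g e t s (fun t' s' => rec ((g, e :: es) :: gs) t' s'))) l

/-- outer loop, over the groups -/
def loopG (rec : List (γ × List ε) → τ → σ → Bool) (k : ℕ) (t : τ) (s : σ)
    (l : List (γ × List ε)) : Bool :=
  @List.rec (γ × List ε) (fun _ => Bool) true (fun g gs ih =>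
    @Bool.rec (fun _ => Bool) (@Bool.rec (fun _ => Bool) false ih
      (grp k g.1 t (fun t' => loopE elt rec k g.1 gs t' s g.2))) true (stop k g.1 t)) l

/-- the search -/
def dfs (n : ℕ) : List (γ × List ε) → τ → σ → Bool :=
  @Nat.rec (fun _ => List (γ × List ε) → τ → σ → Bool) (fun _ t s => fin t s)
    (fun k ih gs t s => loopG stop grp elt ih (Nat.succ k) t s gs) n

theorem loopE_cons (rec : List (γ × List ε) → τ → σ → Bool) (k : ℕ) (g : γ)
    (gs : List (γ × List ε)) (t : τ) (s : σ) (e : ε) (es : List ε) :
    loopE elt rec k g gs t s (e :: es)
      = and (elt k g e t s (fun t' s' => rec ((g, e :: es) :: gs) t' s'))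
        (loopE elt rec k g gs t s es) := by
  change @Bool.rec (fun _ => Bool) false (loopE elt rec k g gs t s es)
    (elt k g e t s (fun t' s' => rec ((g, e :: es) :: gs) t' s')) = _
  cases elt k g e t s (fun t' s' => rec ((g, e :: es) :: gs) t' s') <;> rfl

theorem loopG_cons (rec : List (γ × List ε) → τ → σ → Bool) (k : ℕ) (t : τ) (s : σ)
    (g : γ × List ε) (gs : List (γ × List ε)) :
    loopG stop grp elt rec k t s (g :: gs)
      = or (stop k g.1 t) (and (grp k g.1 t (fun t' => loopE elt rec k g.1 gs t' s g.2))
        (loopG stop grp elt rec k t s gs)) := by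
  change @Bool.rec (fun _ => Bool) (@Bool.rec (fun _ => Bool) false
    (loopG stop grp elt rec k t s gs)
    (grp k g.1 t (fun t' => loopE elt rec k g.1 gs t' s g.2))) true (stop k g.1 t) = _
  cases stop k g.1 t
  · cases grp k g.1 t (fun t' => loopE elt rec k g.1 gs t' s g.2) <;> rfl
  · rfl

theorem dfs_succ (k : ℕ) (gs : List (γ × List ε)) (t : τ) (s : σ) :
    dfs stop grp elt fin (k + 1) gs t s
      = loopG stop grp elt (dfs stop grp elt fin k) (k + 1) t s gs := rfl

variable (feas : ℕ → γ → τ → Bool) (upd : ℕ → γ → τ → τ)
  (flt : ℕ → γ → ε → τ → Bool) (uel : ℕ → γ → ε → τ → τ) (ext : ℕ → γ → ε → τ → σ → σ)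

/-- the path of the bookkeeping state along a sequence is accepted -/
def Path : ℕ → τ → List (γ × ε) → Prop
  | _, _, [] => True
  | k, t, x :: l => feas k x.1 t = true ∧ flt k x.1 x.2 (upd k x.1 t) = true ∧
      Path (k - 1) (uel k x.1 x.2 (upd k x.1 t)) l

/-- the final bookkeeping state -/
def endT : ℕ → τ → List (γ × ε) → τ
  | _, t, [] => t
  | k, t, x :: l => endT (k - 1) (uel k x.1 x.2 (upd k x.1 t)) l

/-- the final data state -/
def endS : ℕ → τ → σ → List (γ × ε) → σ
  | _, _, s, [] => s
  | k, t, s, x :: l =>
    endS (k - 1) (uel k x.1 x.2 (upd k x.1 t)) (ext k x.1 x.2 (upd k x.1 t) s) l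

variable {stop grp elt fin feas upd flt uel ext}

theorem dfs_sound (le : γ → γ → Prop) (hle : ∀ g, le g g)
    (hstop : ∀ k g g' t, stop k g t = true → le g g' → feas k g' t = false)
    (hgrp : ∀ k g t K, stop k g t = false →
      grp k g t K = cond (feas k g t) (K (upd k g t)) true)
    (helt : ∀ k g e t s K, elt k g e t s K
      = cond (flt k g e t) (K (uel k g e t) (ext k g e t s)) true)
    (k : ℕ) (gs : List (γ × List ε)) (hgs : (gs.map Prod.fst).Pairwise le)
    (t : τ) (s : σ) (h : dfs stop grp elt fin k gs t s = true)
    (l : List (γ × ε)) (hl : Pick k (flat gs) l) (hp : Path feas upd flt uel k t l) :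
    fin (endT upd uel k t l) (endS upd uel ext k t s l) = true := by
  induction k generalizing gs t s l with
  | zero =>
    have : l = [] := List.length_eq_zero_iff.1 hl.length
    subst this
    exact h
  | succ k ihk =>
    rw [dfs_succ] at h
    induction gs with
    | nil =>
      exfalso
      have h1 := hl.length
      have h2 := hl.mem
      cases l with
      | nil => simp at h1
      | cons x l =>
        have h3 := h2 x List.mem_cons_self
        simp [flat] at h3
    | cons g gs ihg =>
      obtain ⟨g, es⟩ := g
      rw [loopG_cons, Bool.or_eq_true, Bool.and_eq_true] at h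
      by_cases hs : stop (k + 1) g t = true
      · -- nothing left is feasible
        exfalso
        have h1 := hl.length
        have h2 := hl.mem
        cases l with
        | nil => simp at h1
        | cons x l =>
          have h3 := h2 x List.mem_cons_self
          have h4 : le g x.1 := by
            rw [flat_cons, List.mem_append] at h3
            rcases h3 with h3 | h3
            · obtain ⟨e, _, rfl⟩ := List.mem_map.1 h3
              exact hle g
            · rw [flat, List.mem_flatMap] at h3
              obtain ⟨y, hy, h3⟩ := h3
              obtain ⟨e, _, rfl⟩ := List.mem_map.1 h3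
              rw [List.map_cons, List.pairwise_cons] at hgs
              exact hgs.1 y.1 (List.mem_map_of_mem hy)
          have h5 := hstop (k + 1) g x.1 t hs h4
          rw [hp.1] at h5
          exact Bool.noConfusion h5
      have hsf : stop (k + 1) g t = false := by
        cases hh : stop (k + 1) g t
        · rfl
        · exact absurd hh hs
      rcases h with h | h
      · exact absurd h hs
      obtain ⟨h1, h2⟩ := h
      rw [flat_cons] at hl
      -- either the first entry is in the first group or the sequence is in the rest
      have key : ∀ es' : List ε, Pick (k + 1) (es'.map (fun e => (g, e)) ++ flat gs) l →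
          (feas (k + 1) g t = true →
            loopE elt (dfs stop grp elt fin k) (k + 1) g gs (upd (k + 1) g t) s es' = true) →
          Pick (k + 1) (flat gs) l ∨
            fin (endT upd uel (k + 1) t l) (endS upd uel ext (k + 1) t s l) = true := by
        intro es'
        induction es' with
        | nil => intro hl' _; exact Or.inl hl'
        | cons e es' ihe =>
          intro hl' hE
          rw [List.map_cons, List.cons_append] at hl'
          rcases hl'.cases_cons with hl'' | ⟨l', rfl, hl''⟩
          · refine ihe hl'' ?_
            intro hf
            have := hE hf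
            rw [loopE_cons, Bool.and_eq_true] at this
            exact this.2
          · right
            obtain ⟨p1, p2, p3⟩ := hp
            have := hE p1
            rw [loopE_cons, Bool.and_eq_true, helt, p2] at this
            have h4 := ihk ((g, e :: es') :: gs) hgs (uel (k + 1) g e (upd (k + 1) g t))
              (ext (k + 1) g e (upd (k + 1) g t) s) this.1 l'
              (by rw [flat_cons]; simpa using hl'') (by simpa using p3)
            simpa [endT, endS] using h4
      rcases key es hl (fun hf => by rw [hgrp _ _ _ _ hsf, hf] at h1; exact h1) with h3 | h3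
      · rw [List.map_cons, List.pairwise_cons] at hgs
        exact ihg hgs.2 h2 h3
      · exact h3

end dfs

end Pool.Agent.Work.MP_bde882_al.H69
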