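import Pool.Agent.Work.MP_bde882_al_h69.LieSpan
import Pool.Agent.Work.MP_bde882_al_h69.Enum

/-!
# Enumeration of the multisets of six Lie elements

The list `LB` of `LieSpan.lean` in groups of equal content, the bookkeeping state (remaining
content, remaining degree, code of the first four elements), and the coverage theorem.
-/

set_option autoImplicit false

namespace Pool.Agent.Work.MP_bde882_al.H69

/-- header of a group: packed content `256 a + 16 b + c`, degree, shift of the block code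
`49 a + 7 b + c` -/
structure Hd where
  pc : ℕ
  dg : ℕ
  sh : ℕ
deriving DecidableEq

/-- bookkeeping: remaining content (packed), remaining degree, code of the first four elements -/
structure TS where
  R : ℕ
  cap : ℕ
  code : ℕ

/-- packed content -/
def pk (a b c : ℕ) : ℕ := 256 * a + 16 * b + c

/-- the groups: header and indices of the elements -/
def GS : List (Hd × List ℕ) :=
  [(⟨256, 1, 49⟩, [0]), (⟨17, 2, 8⟩, [1]), (⟨18, 3, 9⟩, [2]), (⟨33, 3, 15⟩, [3]), (⟨258, 3, 51⟩, [4]),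
   (⟨273, 3, 57⟩, [5, 6]), (⟨288, 3, 63⟩, [7]), (⟨513, 3, 99⟩, [8]), (⟨528, 3, 105⟩, [9]),
   (⟨19, 4, 10⟩, [10]), (⟨34, 4, 16⟩, [11]), (⟨49, 4, 22⟩, [12]), (⟨259, 4, 52⟩, [13]),
   (⟨274, 4, 58⟩, [14, 15, 16]), (⟨289, 4, 64⟩, [17, 18, 19]), (⟨304, 4, 70⟩, [20]),
   (⟨514, 4, 100⟩, [21]), (⟨529, 4, 106⟩, [22, 23, 24]), (⟨544, 4, 112⟩, [25]), (⟨769, 4, 148⟩, [26]),
   (⟨784, 4, 154⟩, [27]), (⟨20, 5, 11⟩, [28]), (⟨35, 5, 17⟩, [29, 30]), (⟨50, 5, 23⟩, [31, 32]),
   (⟨65, 5, 29⟩, [33]), (⟨260, 5, 53⟩, [34]), (⟨275, 5, 59⟩, [35, 36, 37, 38]),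
   (⟨290, 5, 65⟩, [39, 40, 41, 42, 43, 44]), (⟨305, 5, 71⟩, [45, 46, 47, 48]), (⟨320, 5, 77⟩, [49]),
   (⟨515, 5, 101⟩, [50, 51]), (⟨530, 5, 107⟩, [52, 53, 54, 55, 56, 57]),
   (⟨545, 5, 113⟩, [58, 59, 60, 61, 62, 63]), (⟨560, 5, 119⟩, [64, 65]), (⟨770, 5, 149⟩, [66, 67]),
   (⟨785, 5, 155⟩, [68, 69, 70, 71]), (⟨800, 5, 161⟩, [72, 73]), (⟨1025, 5, 197⟩, [74]),
   (⟨1040, 5, 203⟩, [75]), (⟨21, 6, 12⟩, [76]), (⟨36, 6, 18⟩, [77, 78]), (⟨51, 6, 24⟩, [79, 80, 81]),
   (⟨66, 6, 30⟩, [82, 83]), (⟨81, 6, 36⟩, [84]), (⟨261, 6, 54⟩, [85]),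
   (⟨276, 6, 60⟩, [86, 87, 88, 89, 90]), (⟨291, 6, 66⟩, [91, 92, 93, 94, 95, 96, 97, 98, 99, 100]),
   (⟨306, 6, 72⟩, [101, 102, 103, 104, 105, 106, 107, 108, 109, 110]),
   (⟨321, 6, 78⟩, [111, 112, 113, 114, 115]), (⟨336, 6, 84⟩, [116]), (⟨516, 6, 102⟩, [117, 118]),
   (⟨531, 6, 108⟩, [119, 120, 121, 122, 123, 124, 125, 126, 127, 128]),
   (⟨546, 6, 114⟩, [129, 130, 131, 132, 133, 134, 135, 136, 137, 138, 139, 140, 141, 142]),
   (⟨561, 6, 120⟩, [143, 144, 145, 146, 147, 148, 149, 150, 151, 152]), (⟨576, 6, 126⟩, [153, 154]),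
   (⟨771, 6, 150⟩, [155, 156, 157]),
   (⟨786, 6, 156⟩, [158, 159, 160, 161, 162, 163, 164, 165, 166, 167]),
   (⟨801, 6, 162⟩, [168, 169, 170, 171, 172, 173, 174, 175, 176, 177]),
   (⟨816, 6, 168⟩, [178, 179, 180]), (⟨1026, 6, 198⟩, [181, 182]),
   (⟨1041, 6, 204⟩, [183, 184, 185, 186, 187]), (⟨1056, 6, 210⟩, [188, 189]), (⟨1281, 6, 246⟩, [190]),
   (⟨1296, 6, 252⟩, [191]), (⟨22, 7, 13⟩, [192]), (⟨37, 7, 19⟩, [193, 194, 195]),
   (⟨52, 7, 25⟩, [196, 197, 198, 199, 200]), (⟨67, 7, 31⟩, [201, 202, 203, 204, 205]),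
   (⟨82, 7, 37⟩, [206, 207, 208]), (⟨97, 7, 43⟩, [209]), (⟨262, 7, 55⟩, [210]),
   (⟨277, 7, 61⟩, [211, 212, 213, 214, 215, 216]),
   (⟨292, 7, 67⟩, [217, 218, 219, 220, 221, 222, 223, 224, 225, 226, 227, 228, 229, 230, 231]),
   (⟨307, 7, 73⟩, [232, 233, 234, 235, 236, 237, 238, 239, 240, 241, 242, 243, 244, 245, 246, 247, 248, 249, 250, 251]),
   (⟨322, 7, 79⟩, [252, 253, 254, 255, 256, 257, 258, 259, 260, 261, 262, 263, 264, 265, 266]),
   (⟨337, 7, 85⟩, [267, 268, 269, 270, 271, 272]), (⟨352, 7, 91⟩, [273]),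
   (⟨517, 7, 103⟩, [274, 275, 276]),
   (⟨532, 7, 109⟩, [277, 278, 279, 280, 281, 282, 283, 284, 285, 286, 287, 288, 289, 290, 291]),
   (⟨547, 7, 115⟩, [292, 293, 294, 295, 296, 297, 298, 299, 300, 301, 302, 303, 304, 305, 306, 307, 308, 309, 310, 311, 312, 313, 314, 315, 316, 317, 318, 319, 320, 321]),
   (⟨562, 7, 121⟩, [322, 323, 324, 325, 326, 327, 328, 329, 330, 331, 332, 333, 334, 335, 336, 337, 338, 339, 340, 341, 342, 343, 344, 345, 346, 347, 348, 349, 350, 351]),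
   (⟨577, 7, 127⟩, [352, 353, 354, 355, 356, 357, 358, 359, 360, 361, 362, 363, 364, 365, 366]),
   (⟨592, 7, 133⟩, [367, 368, 369]), (⟨772, 7, 151⟩, [370, 371, 372, 373, 374]),
   (⟨787, 7, 157⟩, [375, 376, 377, 378, 379, 380, 381, 382, 383, 384, 385, 386, 387, 388, 389, 390, 391, 392, 393, 394]),
   (⟨802, 7, 163⟩, [395, 396, 397, 398, 399, 400, 401, 402, 403, 404, 405, 406, 407, 408, 409, 410, 411, 412, 413, 414, 415, 416, 417, 418, 419, 420, 421, 422, 423, 424]),
   (⟨817, 7, 169⟩, [425, 426, 427, 428, 429, 430, 431, 432, 433, 434, 435, 436, 437, 438, 439, 440, 441, 442, 443, 444]),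
   (⟨832, 7, 175⟩, [445, 446, 447, 448, 449]), (⟨1027, 7, 199⟩, [450, 451, 452, 453, 454]),
   (⟨1042, 7, 205⟩, [455, 456, 457, 458, 459, 460, 461, 462, 463, 464, 465, 466, 467, 468, 469]),
   (⟨1057, 7, 211⟩, [470, 471, 472, 473, 474, 475, 476, 477, 478, 479, 480, 481, 482, 483, 484]),
   (⟨1072, 7, 217⟩, [485, 486, 487, 488, 489]), (⟨1282, 7, 247⟩, [490, 491, 492]),
   (⟨1297, 7, 253⟩, [493, 494, 495, 496, 497, 498]), (⟨1312, 7, 259⟩, [499, 500, 501]),
   (⟨1537, 7, 295⟩, [502]), (⟨1552, 7, 301⟩, [503])]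

/-- number of letters `j` in the `i`-th word -/
def wt (j : Fin 3) (i : Fin 504) : ℕ := (lbWord i).count j

/-- header of the `i`-th element -/
def hd (i : Fin 504) : Hd :=
  ⟨pk (wt 0 i) (wt 1 i) (wt 2 i), lbDeg i, 49 * wt 0 i + 7 * wt 1 i + wt 2 i⟩

/-- check of one entry -/
def okAt (x : Hd × ℕ) (y : ℕ × ℕ) (i : ℕ) : Bool :=
  and (Nat.beq x.2 i) (and (Nat.beq x.1.dg y.1)
    (and (Nat.beq x.1.pc (pk ((dec y.1 y.2).count 0) ((dec y.1 y.2).count 1)
        ((dec y.1 y.2).count 2)))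
      (Nat.beq x.1.sh (49 * (dec y.1 y.2).count 0 + 7 * (dec y.1 y.2).count 1
        + (dec y.1 y.2).count 2))))

/-- check of the list -/
def okL : List (Hd × ℕ) → List (ℕ × ℕ) → ℕ → Bool
  | [], [], _ => true
  | x :: xs, y :: ys, i => and (okAt x y i) (okL xs ys (i + 1))
  | _, _, _ => false

theorem okL_spec (xs : List (Hd × ℕ)) (ys : List (ℕ × ℕ)) (i : ℕ) (h : okL xs ys i = true) :
    xs.length = ys.length ∧ ∀ (j : ℕ) (h1 : j < xs.length) (h2 : j < ys.length),
      okAt xs[j] ys[j] (i + j) = true := by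
  induction xs generalizing ys i with
  | nil =>
    cases ys with
    | nil => exact ⟨rfl, fun j h1 => absurd h1 (Nat.not_lt_zero j)⟩
    | cons y ys => simp [okL] at h
  | cons x xs ih =>
    cases ys with
    | nil => simp [okL] at h
    | cons y ys =>
      rw [okL, Bool.and_eq_true] at h
      obtain ⟨h1, h2⟩ := h
      obtain ⟨h3, h4⟩ := ih ys (i + 1) h2
      refine ⟨by rw [List.length_cons, List.length_cons, h3], ?_⟩
      intro j hj1 hj2
      cases j with
      | zero => exact h1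
      | succ j =>
        have := h4 j (by simpa using hj1) (by simpa using hj2)
        simp only [List.getElem_cons_succ]
        rw [show i + (j + 1) = i + 1 + j by omega]
        exact this

theorem okGS : okL (flat GS) LB 0 = true := by decide +kernel

theorem flatGS_length : (flat GS).length = 504 := by
  rw [(okL_spec _ _ _ okGS).1, LB_length]

theorem flatGS_get (i : ℕ) (hi : i < 504) :
    (flat GS)[i]'(by rw [flatGS_length]; exact hi) = (hd ⟨i, hi⟩, i) := by
  have hL : i < LB.length := by rw [LB_length]; exact hi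
  have h := (okL_spec _ _ _ okGS).2 i (by rw [flatGS_length]; exact hi) hL
  simp only [okAt, Bool.and_eq_true] at h
  obtain ⟨h1, h2, h3, h4⟩ := h
  have e1 := Nat.eq_of_beq_eq_true h1
  have e2 := Nat.eq_of_beq_eq_true h2
  have e3 := Nat.eq_of_beq_eq_true h3
  have e4 := Nat.eq_of_beq_eq_true h4
  rw [zero_add] at e1
  have hw : lbWord ⟨i, hi⟩ = dec LB[i].1 LB[i].2 := by
    rw [lbWord, LB_getD i hL]
  have hdg : lbDeg ⟨i, hi⟩ = LB[i].1 := by
    rw [lbDeg, LB_getD i hL]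
  refine Prod.ext ?_ e1
  simp only [hd, wt, hw, hdg]
  rw [← e3, ← e4, ← e2]

theorem GS_sorted : (GS.map Prod.fst).Pairwise (fun g g' => g.dg ≤ g'.dg) := by
  have h : ∀ L : List Hd, ((L.map Hd.dg).zip (L.map Hd.dg).tail).all
      (fun x => Nat.ble x.1 x.2) = true → L.Pairwise (fun x y => x.dg ≤ y.dg) := by
    intro L hL
    have h1 : List.IsChain (fun x y : Hd => x.dg ≤ y.dg) L := by
      induction L with
      | nil => exact List.IsChain.nil
      | cons a L ih =>
        cases L with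
        | nil => exact List.IsChain.singleton a
        | cons b L =>
          simp only [List.map_cons, List.tail_cons, List.zip_cons_cons, List.all_cons,
            Bool.and_eq_true] at hL ih
          exact List.IsChain.cons_cons (Nat.le_of_ble_eq_true hL.1) (ih hL.2)
    have : IsTrans Hd (fun x y : Hd => x.dg ≤ y.dg) := ⟨fun _ _ _ h1 h2 => h1.trans h2⟩
    exact h1.pairwise
  exact h _ (by decide +kernel)

theorem pick_of_monotone' {α : Type*} {k : ℕ} (L : List α) (n : ℕ) (hn : L.length = n)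
    (c : Fin k → Fin n) (hc : Monotone c) (f : Fin n → α)
    (hf : ∀ (i : ℕ) (h : i < n), L[i]'(by rw [hn]; exact h) = f ⟨i, h⟩) :
    Pick k L (List.ofFn fun i => f (c i)) := by
  subst hn
  have h := pick_of_monotone L c hc
  have h2 : (fun i => L.get (c i)) = fun i => f (c i) := by
    funext i
    exact hf (c i).val (c i).isLt
  rw [h2] at h
  exact h

/-- forcing the evaluation in the kernel -/
def frc (n : ℕ) (K : ℕ → Bool) : Bool := Nat.rec (K 0) (fun m _ => K (Nat.succ m)) n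

theorem frc_eq (n : ℕ) (K : ℕ → Bool) : frc n K = K n := by cases n <;> rfl

section search

variable {σ : Type*} (al : ℕ → Bool) (extK : Hd → ℕ → σ → (σ → Bool) → Bool)
  (ext : Hd → ℕ → σ → σ) (fin : σ → Bool) (lo hi : ℕ)

/-- may the group `g` be used with `k` elements left? -/
def tst (k : ℕ) (g : Hd) (t : TS) : Bool :=
  and (Nat.ble (Nat.mul k g.dg) t.cap)
    (and (Nat.beq (Nat.land (Nat.sub (Nat.add t.R 2184) g.pc) 2184) 2184)
      (cond (Nat.beq k 1) (al (Nat.sub t.R g.pc)) true))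

/-- new degree bound -/
def capN (k c d : ℕ) : ℕ :=
  cond (Nat.beq k 2) (cond (Nat.ble (Nat.sub c d) (Nat.succ d)) (Nat.sub c d) (Nat.succ d))
    (Nat.sub c d)

/-- bookkeeping, group level -/
def updT (k : ℕ) (g : Hd) (t : TS) : TS := ⟨Nat.sub t.R g.pc, capN k t.cap g.dg, t.code⟩

/-- early exit: the remaining degree is too small -/
def stopT (k : ℕ) (g : Hd) (t : TS) : Bool := Nat.ble (Nat.succ t.cap) (Nat.mul k g.dg)

/-- group level step -/
def grpK (k : ℕ) (g : Hd) (t : TS) (K : TS → Bool) : Bool :=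
  @Bool.rec (fun _ => Bool) true
    (frc (Nat.sub t.R g.pc) fun r =>
      @Bool.rec (fun _ => Bool) true (frc (capN k t.cap g.dg) fun c => K ⟨r, c, t.code⟩)
        (@Bool.rec (fun _ => Bool) true (al r) (Nat.beq k 1)))
    (Nat.beq (Nat.land (Nat.sub (Nat.add t.R 2184) g.pc) 2184) 2184)

/-- is the prefix code compatible with the interval? (`k` elements left before this one) -/
def inI (k c : ℕ) : Bool :=
  and (Nat.ble (Nat.div lo (Nat.pow 512 (Nat.sub k 3))) c)
    (Nat.ble c (Nat.div hi (Nat.pow 512 (Nat.sub k 3))))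

/-- filter -/
def fltE (k : ℕ) (_ : Hd) (e : ℕ) (t : TS) : Bool :=
  cond (Nat.ble 3 k) (inI lo hi k (Nat.add (Nat.mul 512 t.code) e)) true

/-- bookkeeping, element level -/
def uelT (k : ℕ) (_ : Hd) (e : ℕ) (t : TS) : TS :=
  cond (Nat.ble 3 k) ⟨t.R, t.cap, Nat.add (Nat.mul 512 t.code) e⟩ t

/-- element level step -/
def eltK (k : ℕ) (g : Hd) (e : ℕ) (t : TS) (s : σ) (K : TS → σ → Bool) : Bool :=
  @Bool.rec (fun _ => Bool) (extK g e s fun s' => K t s')
    (frc (Nat.add (Nat.mul 512 t.code) e) fun c =>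
      cond (inI lo hi k c) (extK g e s fun s' => K ⟨t.R, t.cap, c⟩ s') true) (Nat.ble 3 k)

/-- the search for one start vector and one interval -/
def runS (R cap : ℕ) (s : σ) : Bool :=
  dfs stopT (grpK al) (eltK extK lo hi) (fun _ s => fin s) 6 GS ⟨R, cap, 0⟩ s

/-- code of the first four elements -/
def code4 (c : Fin 6 → Fin 504) : ℕ :=
  512 * (512 * (512 * (c 0).val + (c 1).val) + (c 2).val) + (c 3).val

theorem stopT_spec (k : ℕ) (g g' : Hd) (t : TS) (h : stopT k g t = true) (hg : g.dg ≤ g'.dg) :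
    tst al k g' t = false := by
  have h1 : t.cap + 1 ≤ k * g.dg := Nat.le_of_ble_eq_true h
  have h2 : k * g.dg ≤ k * g'.dg := Nat.mul_le_mul_left k hg
  cases h3 : tst al k g' t
  · rfl
  · rw [tst, Bool.and_eq_true] at h3
    have h4 : k * g'.dg ≤ t.cap := Nat.le_of_ble_eq_true h3.1
    omega

theorem grpK_eq (k : ℕ) (g : Hd) (t : TS) (K : TS → Bool) (hs : stopT k g t = false) :
    grpK al k g t K = cond (tst al k g t) (K (updT k g t)) true := by
  have h1 : Nat.ble (Nat.mul k g.dg) t.cap = true := by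
    have h2 : ¬ t.cap + 1 ≤ k * g.dg := fun h => by
      have := Nat.ble_eq_true_of_le h
      rw [stopT] at hs
      exact Bool.noConfusion (hs.symm.trans this)
    exact Nat.ble_eq_true_of_le (show k * g.dg ≤ t.cap by omega)
  rw [grpK, tst, h1, frc_eq, frc_eq, updT, Bool.true_and]
  cases Nat.beq (Nat.land (Nat.sub (Nat.add t.R 2184) g.pc) 2184) 2184
  · rfl
  · cases Nat.beq k 1
    · rfl
    · simp only [cond_true, Bool.true_and]
      cases al (Nat.sub t.R g.pc) <;> rfl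

theorem eltK_eq (hext : ∀ g e s K, extK g e s K = K (ext g e s)) (k : ℕ) (g : Hd) (e : ℕ)
    (t : TS) (s : σ) (K : TS → σ → Bool) :
    eltK extK lo hi k g e t s K
      = cond (fltE lo hi k g e t) (K (uelT k g e t) (ext g e s)) true := by
  rw [eltK, frc_eq, fltE, uelT]
  cases h : Nat.ble 3 k
  · simp only [cond_false, cond_true, hext]
  · simp only [cond_true, hext]

theorem land_guard : ∀ x < 8, ∀ y < 8, ∀ z < 8,
    Nat.land (256 * (8 + x) + 16 * (8 + y) + (8 + z)) 2184 = 2184 := by decide +kernel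

theorem tst_true (k : ℕ) (g : Hd) (t : TS) (x y z x' y' z' : ℕ) (hR : t.R = pk x y z)
    (hg : g.pc = pk x' y' z') (h1 : x' ≤ x) (h2 : y' ≤ y) (h3 : z' ≤ z) (hx : x ≤ 6)
    (hy : y ≤ 6) (hz : z ≤ 6) (hk : k * g.dg ≤ t.cap)
    (ha : k = 1 → al (pk (x - x') (y - y') (z - z')) = true) : tst al k g t = true := by
  rw [tst, Bool.and_eq_true, Bool.and_eq_true]
  refine ⟨Nat.ble_eq_true_of_le hk, ?_, ?_⟩
  · rw [hR, hg]
    have h := land_guard (x - x') (by omega) (y - y') (by omega) (z - z') (by omega)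
    have e : Nat.sub (Nat.add (pk x y z) 2184) (pk x' y' z')
        = 256 * (8 + (x - x')) + 16 * (8 + (y - y')) + (8 + (z - z')) := by
      change pk x y z + 2184 - pk x' y' z' = _
      simp only [pk]
      omega
    rw [e, h]
    rfl
  · cases hk1 : Nat.beq k 1
    · rfl
    · have h1' := Nat.eq_of_beq_eq_true hk1
      have h2' := ha h1'
      have e : Nat.sub t.R g.pc = pk (x - x') (y - y') (z - z') := by
        rw [hR, hg]
        change pk x y z - pk x' y' z' = _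
        simp only [pk]
        omega
      rw [e, cond_true]
      exact h2'

theorem pk_sub (x y z x' y' z' : ℕ) (h1 : x' ≤ x) (h2 : y' ≤ y) (h3 : z' ≤ z) :
    Nat.sub (pk x y z) (pk x' y' z') = pk (x - x') (y - y') (z - z') := by
  change pk x y z - pk x' y' z' = _
  simp only [pk]
  omega

theorem inI_true (k c4 c : ℕ) (hc : c = c4 / 512 ^ (k - 3)) (h1 : lo ≤ c4) (h2 : c4 ≤ hi) :
    inI lo hi k c = true := by
  rw [inI, Bool.and_eq_true]
  subst hc
  exact ⟨Nat.ble_eq_true_of_le (Nat.div_le_div_right h1),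
    Nat.ble_eq_true_of_le (Nat.div_le_div_right h2)⟩

theorem path_step (k : ℕ) (g : Hd) (e : ℕ) (l : List (Hd × ℕ))
    (x y z x' y' z' cap code cap' : ℕ)
    (hg : g.pc = pk x' y' z') (h1 : x' ≤ x) (h2 : y' ≤ y) (h3 : z' ≤ z) (hx : x ≤ 6)
    (hy : y ≤ 6) (hz : z ≤ 6) (hk : k * g.dg ≤ cap) (hc : capN k cap g.dg = cap')
    (ha : k = 1 → al (pk (x - x') (y - y') (z - z')) = true)
    (hf : fltE lo hi k g e ⟨pk (x - x') (y - y') (z - z'), cap', code⟩ = true)
    (hp : Path (tst al) updT (fltE lo hi) uelT (k - 1)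
      (uelT k g e ⟨pk (x - x') (y - y') (z - z'), cap', code⟩) l) :
    Path (tst al) updT (fltE lo hi) uelT k ⟨pk x y z, cap, code⟩ ((g, e) :: l) := by
  have e1 : updT k g ⟨pk x y z, cap, code⟩
      = ⟨pk (x - x') (y - y') (z - z'), cap', code⟩ := by
    rw [updT]
    simp only [hc, hg, pk_sub x y z x' y' z' h1 h2 h3]
  refine ⟨tst_true al k g _ x y z x' y' z' rfl hg h1 h2 h3 hx hy hz hk ha, ?_, ?_⟩
  · change fltE lo hi k g e (updT k g ⟨pk x y z, cap, code⟩) = true
    rw [e1]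
    exact hf
  · change Path (tst al) updT (fltE lo hi) uelT (k - 1)
      (uelT k g e (updT k g ⟨pk x y z, cap, code⟩)) l
    rw [e1]
    exact hp

theorem endS_foldl {τ : Type*} (upd : ℕ → Hd → τ → τ) (uel : ℕ → Hd → ℕ → τ → τ) (k : ℕ) (t : τ)
    (s : σ) (l : List (Hd × ℕ)) :
    endS upd uel (fun _ g e _ s => ext g e s) k t s l = l.foldl (fun s x => ext x.1 x.2 s) s := by
  induction l generalizing k t s with
  | nil => rfl
  | cons x l ih => rw [endS, ih, List.foldl_cons]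

theorem capN_ne (k c d : ℕ) (hk : k ≠ 2) : capN k c d = c - d := by
  rw [capN]
  cases h : Nat.beq k 2
  · rfl
  · exact absurd (Nat.eq_of_beq_eq_true h) hk

theorem capN_two (c d x : ℕ) (h1 : x ≤ c - d) (h2 : x ≤ d + 1) : x ≤ capN 2 c d := by
  change x ≤ cond true (cond (Nat.ble (c - d) (d + 1)) (c - d) (d + 1)) (c - d)
  rw [cond_true]
  cases Nat.ble (c - d) (d + 1)
  · exact h2
  · exact h1

/-- **Coverage of one search.** -/
theorem runS_sound (hext : ∀ g e s K, extK g e s K = K (ext g e s)) (a b c cap : ℕ) (ha : a ≤ 6)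
    (hb : b ≤ 6) (hc : c ≤ 6) (s : σ) (h : runS al extK fin lo hi (pk a b c) cap s = true)
    (cc : Fin 6 → Fin 504) (hm : Monotone cc) (h0 : ∑ i, wt 0 (cc i) ≤ a)
    (h1 : ∑ i, wt 1 (cc i) ≤ b) (h2 : ∑ i, wt 2 (cc i) ≤ c) (hdeg : ∑ i, lbDeg (cc i) ≤ cap)
    (hbal : lbDeg (cc 5) ≤ lbDeg (cc 4) + 1)
    (hal : al (pk (a - ∑ i, wt 0 (cc i)) (b - ∑ i, wt 1 (cc i)) (c - ∑ i, wt 2 (cc i))) = true)
    (hlo : lo ≤ code4 cc) (hhi : code4 cc ≤ hi) :
    fin ((List.ofFn cc).foldl (fun s i => ext (hd i) i.val s) s) = true := by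
  have hpick : Pick 6 (flat GS) (List.ofFn fun i => (hd (cc i), (cc i).val)) := by
    exact pick_of_monotone' (flat GS) 504 flatGS_length cc hm (fun i => (hd i, i.val))
      (fun i hi => flatGS_get i hi)
  have hl : (List.ofFn fun i => (hd (cc i), (cc i).val))
      = [(hd (cc 0), (cc 0).val), (hd (cc 1), (cc 1).val), (hd (cc 2), (cc 2).val),
        (hd (cc 3), (cc 3).val), (hd (cc 4), (cc 4).val), (hd (cc 5), (cc 5).val)] := by
    simp [List.ofFn_succ]
  simp only [Fin.sum_univ_six] at h0 h1 h2 hdeg hal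
  have d01 : lbDeg (cc 0) ≤ lbDeg (cc 1) := lbDeg_mono (hm (by decide))
  have d12 : lbDeg (cc 1) ≤ lbDeg (cc 2) := lbDeg_mono (hm (by decide))
  have d23 : lbDeg (cc 2) ≤ lbDeg (cc 3) := lbDeg_mono (hm (by decide))
  have d34 : lbDeg (cc 3) ≤ lbDeg (cc 4) := lbDeg_mono (hm (by decide))
  have d45 : lbDeg (cc 4) ≤ lbDeg (cc 5) := lbDeg_mono (hm (by decide))
  have hpath : Path (tst al) updT (fltE lo hi) uelT 6 ⟨pk a b c, cap, 0⟩
      (List.ofFn fun i => (hd (cc i), (cc i).val)) := by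
    rw [hl]
    have c3 : (cc 3).val < 512 := by have := (cc 3).isLt; omega
    have c2 : (cc 2).val < 512 := by have := (cc 2).isLt; omega
    have c1 : (cc 1).val < 512 := by have := (cc 1).isLt; omega
    have q6 : 512 * 0 + (cc 0).val = code4 cc / 512 ^ (6 - 3) := by
      rw [code4]
      norm_num
      omega
    have q5 : 512 * (512 * 0 + (cc 0).val) + (cc 1).val = code4 cc / 512 ^ (5 - 3) := by
      rw [code4]
      norm_num
      omega
    have q4 : 512 * (512 * (512 * 0 + (cc 0).val) + (cc 1).val) + (cc 2).val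
        = code4 cc / 512 ^ (4 - 3) := by
      rw [code4]
      norm_num
      omega
    have q3 : 512 * (512 * (512 * (512 * 0 + (cc 0).val) + (cc 1).val) + (cc 2).val) + (cc 3).val
        = code4 cc / 512 ^ (3 - 3) := by
      rw [code4]
      norm_num
    refine path_step al lo hi 6 _ _ _ a b c _ _ _ _ _ _ rfl (by omega) (by omega) (by omega)
      ha hb hc ?_ (capN_ne 6 _ _ (by decide)) (fun h => absurd h (by decide))
      (inI_true lo hi 6 _ _ q6 hlo hhi) ?_
    · change 6 * lbDeg (cc 0) ≤ cap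
      omega
    refine path_step al lo hi 5 _ _ _ _ _ _ _ _ _ _ _ _ rfl (by omega) (by omega) (by omega)
      (by omega) (by omega) (by omega) ?_ (capN_ne 5 _ _ (by decide))
      (fun h => absurd h (by decide)) (inI_true lo hi 5 _ _ q5 hlo hhi) ?_
    · change 5 * lbDeg (cc 1) ≤ cap - lbDeg (cc 0)
      omega
    refine path_step al lo hi 4 _ _ _ _ _ _ _ _ _ _ _ _ rfl (by omega) (by omega) (by omega)
      (by omega) (by omega) (by omega) ?_ (capN_ne 4 _ _ (by decide))
      (fun h => absurd h (by decide)) (inI_true lo hi 4 _ _ q4 hlo hhi) ?_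
    · change 4 * lbDeg (cc 2) ≤ cap - lbDeg (cc 0) - lbDeg (cc 1)
      omega
    refine path_step al lo hi 3 _ _ _ _ _ _ _ _ _ _ _ _ rfl (by omega) (by omega) (by omega)
      (by omega) (by omega) (by omega) ?_ (capN_ne 3 _ _ (by decide))
      (fun h => absurd h (by decide)) (inI_true lo hi 3 _ _ q3 hlo hhi) ?_
    · change 3 * lbDeg (cc 3) ≤ cap - lbDeg (cc 0) - lbDeg (cc 1) - lbDeg (cc 2)
      omega
    refine path_step al lo hi 2 _ _ _ _ _ _ _ _ _ _ _ _ rfl (by omega) (by omega) (by omega)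
      (by omega) (by omega) (by omega) ?_ rfl (fun h => absurd h (by decide)) rfl ?_
    · change 2 * lbDeg (cc 4) ≤ cap - lbDeg (cc 0) - lbDeg (cc 1) - lbDeg (cc 2) - lbDeg (cc 3)
      omega
    refine path_step al lo hi 1 _ _ _ _ _ _ _ _ _ _ _ _ rfl (by omega) (by omega) (by omega)
      (by omega) (by omega) (by omega) ?_ rfl (fun _ => ?_) rfl trivial
    · change 1 * lbDeg (cc 5) ≤ capN 2
        (cap - lbDeg (cc 0) - lbDeg (cc 1) - lbDeg (cc 2) - lbDeg (cc 3)) (lbDeg (cc 4))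
      rw [one_mul]
      exact capN_two _ _ _ (by omega) (by omega)
    · convert hal using 2
      congr 1 <;> omega
  have key := dfs_sound (stop := stopT) (grp := grpK al) (elt := eltK extK lo hi)
    (fin := fun _ s => fin s)
    (feas := tst al) (upd := updT) (flt := fltE lo hi) (uel := uelT)
    (ext := fun _ g e _ s => ext g e s) (fun g g' => g.dg ≤ g'.dg) (fun _ => le_rfl)
    (fun k g g' t => stopT_spec al k g g' t) (grpK_eq al) (eltK_eq extK ext lo hi hext) 6 GS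
    GS_sorted ⟨pk a b c, cap, 0⟩ s h _ hpick hpath
  rw [endS_foldl] at key
  rw [hl] at key
  rw [show List.ofFn cc = [cc 0, cc 1, cc 2, cc 3, cc 4, cc 5] by
    simp [List.ofFn_succ]]
  exact key

/-- bounded conjunction -/
def allN (f : ℕ → Bool) (n : ℕ) : Bool := Nat.rec true (fun m r => and (f m) r) n

theorem allN_spec (f : ℕ → Bool) (n : ℕ) (h : allN f n = true) (i : ℕ) (hi : i < n) :
    f i = true := by
  induction n with
  | zero => exact absurd hi (Nat.not_lt_zero i)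
  | succ n ih =>
    have h' : and (f n) (allN f n) = true := h
    rw [Bool.and_eq_true] at h'
    rcases Nat.lt_succ_iff_lt_or_eq.1 hi with h1 | h1
    · exact ih h'.2 h1
    · exact h1 ▸ h'.1

/-- remaining content for the start block `β = 49 a + 7 b + c` -/
def RB (β : ℕ) : ℕ := pk (6 - β / 49) (6 - β / 7 % 7) (6 - β % 7)

/-- remaining degree for the start block -/
def capB (β : ℕ) : ℕ := 18 - 2 * (β / 49 + β / 7 % 7 + β % 7)

variable (dd : ℕ → ℕ) (s0 : ℕ → ℕ → σ)

/-- one job: block, interval `[lo, hi]` of codes of the first four elements -/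
def runJob (j : ℕ × ℕ × ℕ) : Bool :=
  frc (RB j.1) fun R => frc (capB j.1) fun cap =>
    allN (fun i => runS al extK fin j.2.1 j.2.2 R cap (s0 j.1 i)) (dd j.1)

/-- the intervals of the block `β` in the list of jobs cover `[0, result)` -/
def covF (β : ℕ) : List (ℕ × ℕ × ℕ) → ℕ → ℕ
  | [], cur => cur
  | j :: js, cur => covF β js (cond (and (Nat.beq j.1 β) (Nat.ble j.2.1 cur))
      (cond (Nat.ble cur j.2.2) (Nat.succ j.2.2) cur) cur)

theorem covF_spec (β : ℕ) (js : List (ℕ × ℕ × ℕ)) (cur x : ℕ) (h1 : cur ≤ x)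
    (h2 : x < covF β js cur) : ∃ j ∈ js, j.1 = β ∧ j.2.1 ≤ x ∧ x ≤ j.2.2 := by
  induction js generalizing cur with
  | nil => exact absurd h2 (not_lt.2 h1)
  | cons j js ih =>
    rw [covF] at h2
    cases hb : and (Nat.beq j.1 β) (Nat.ble j.2.1 cur)
    · rw [hb, cond_false] at h2
      obtain ⟨j', h3, h4⟩ := ih cur h1 h2
      exact ⟨j', List.mem_cons_of_mem _ h3, h4⟩
    · rw [hb, cond_true] at h2
      rw [Bool.and_eq_true] at hb
      have e1 := Nat.eq_of_beq_eq_true hb.1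
      have e2 := Nat.le_of_ble_eq_true hb.2
      by_cases hx : x ≤ j.2.2
      · exact ⟨j, List.mem_cons_self, e1, e2.trans h1, hx⟩
      · cases hc : Nat.ble cur j.2.2
        · rw [hc, cond_false] at h2
          obtain ⟨j', h3, h4⟩ := ih cur h1 h2
          exact ⟨j', List.mem_cons_of_mem _ h3, h4⟩
        · rw [hc, cond_true] at h2
          obtain ⟨j', h3, h4⟩ := ih (Nat.succ j.2.2) (by omega) h2
          exact ⟨j', List.mem_cons_of_mem _ h3, h4⟩

/-- the jobs cover everything -/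
def covA (js : List (ℕ × ℕ × ℕ)) : Bool :=
  allN (fun β => or (Nat.beq (dd β) 0) (or (Nat.blt 6 (β / 49 + β / 7 % 7 + β % 7))
    (Nat.ble (512 ^ 4) (covF β js 0)))) 343

theorem lbDeg_pos (i : Fin 504) : 1 ≤ lbDeg i := by
  have h : lbDeg 0 = 1 := by decide +kernel
  rw [← h]
  exact lbDeg_mono (Fin.zero_le i)

theorem dec_length (d n : ℕ) : (dec d n).length = d := by
  induction d generalizing n with
  | zero => rfl
  | succ d ih => rw [dec, List.length_cons, ih]

theorem count_three (l : List (Fin 3)) : l.count 0 + l.count 1 + l.count 2 = l.length := by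
  induction l with
  | nil => rfl
  | cons x l ih =>
    simp only [List.count_cons, List.length_cons]
    fin_cases x <;> simp <;> omega

theorem wt_sum (i : Fin 504) : wt 0 i + wt 1 i + wt 2 i = lbDeg i := by
  rw [wt, wt, wt, count_three, lbWord, dec_length, lbDeg]

theorem code4_lt (c : Fin 6 → Fin 504) : code4 c < 512 ^ 4 := by
  have h0 := (c 0).isLt
  have h1 := (c 1).isLt
  have h2 := (c 2).isLt
  have h3 := (c 3).isLt
  rw [code4]
  norm_num
  omega

/-- **Coverage.** -/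
theorem enum_all (hext : ∀ g e s K, extK g e s K = K (ext g e s)) (js : List (ℕ × ℕ × ℕ))
    (hcov : covA dd js = true) (hjobs : ∀ j ∈ js, runJob al extK fin dd s0 j = true)
    (β : ℕ) (hβ : β < 343) (idx : ℕ) (hidx : idx < dd β) (cc : Fin 6 → Fin 504)
    (hm : Monotone cc) (h0 : β / 49 + ∑ i, wt 0 (cc i) ≤ 6)
    (h1 : β / 7 % 7 + ∑ i, wt 1 (cc i) ≤ 6) (h2 : β % 7 + ∑ i, wt 2 (cc i) ≤ 6)
    (hdeg : 2 * (β / 49 + β / 7 % 7 + β % 7) + ∑ i, lbDeg (cc i) ≤ 18)
    (hbal : lbDeg (cc 5) ≤ lbDeg (cc 4) + 1)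
    (hal : al (pk (6 - β / 49 - ∑ i, wt 0 (cc i)) (6 - β / 7 % 7 - ∑ i, wt 1 (cc i))
      (6 - β % 7 - ∑ i, wt 2 (cc i))) = true) :
    fin ((List.ofFn cc).foldl (fun s i => ext (hd i) i.val s) (s0 β idx)) = true := by
  have hlev : β / 49 + β / 7 % 7 + β % 7 ≤ 6 := by
    have h3 : ∑ i : Fin 6, 1 ≤ ∑ i, lbDeg (cc i) := Finset.sum_le_sum fun i _ => lbDeg_pos (cc i)
    simp only [Finset.sum_const, Finset.card_univ, Fintype.card_fin, smul_eq_mul, mul_one] at h3
    omega
  have hc1 := allN_spec _ _ hcov β hβ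
  simp only [Bool.or_eq_true] at hc1
  rcases hc1 with hc1 | hc1 | hc1
  · have := Nat.eq_of_beq_eq_true hc1
    omega
  · have h4 : 6 < β / 49 + β / 7 % 7 + β % 7 := Nat.le_of_ble_eq_true hc1
    omega
  · have h5 := Nat.le_of_ble_eq_true hc1
    obtain ⟨j, hj, hj1, hj2, hj3⟩ := covF_spec β js 0 (code4 cc) (Nat.zero_le _)
      (lt_of_lt_of_le (code4_lt cc) h5)
    have h6 := hjobs j hj
    rw [runJob, frc_eq, frc_eq, hj1] at h6
    have h7 := allN_spec _ _ h6 idx hidx
    exact runS_sound al extK ext fin j.2.1 j.2.2 hext (6 - β / 49) (6 - β / 7 % 7) (6 - β % 7)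
      (capB β) (Nat.sub_le _ _) (Nat.sub_le _ _) (Nat.sub_le _ _) _ h7 cc hm (by omega) (by omega)
      (by omega) (by rw [capB]; omega) hbal hal hj2 hj3

end search

end Pool.Agent.Work.MP_bde882_al.H69
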