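import Pool.Agent.Work.MP_bde882_al_h69.EnumD

/-!
# Enumeration of the multisets of six Lie elements: largest element first, the others ascending

`GA` is any list of candidates (classes = degrees, groups = contents, elements of any type `ε`) in
ascending order with the shape `SHA`. A job has a start block, a basis vector and a largest
element; the leaf test is applied to the ascending list of the six elements.
-/

set_option autoImplicit false

namespace Pool.Agent.Work.MP_bde882_al.H69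

/-- classes (degree), groups (header, number of elements), in ascending order -/
def SHA : List (ℕ × List (Hd × ℕ)) :=
  [(1, [(⟨256, 1, 49⟩, 1)]),
   (2, [(⟨17, 2, 8⟩, 1)]),
   (3, [(⟨18, 3, 9⟩, 1), (⟨33, 3, 15⟩, 1), (⟨258, 3, 51⟩, 1), (⟨273, 3, 57⟩, 2), (⟨288, 3, 63⟩, 1),
    (⟨513, 3, 99⟩, 1), (⟨528, 3, 105⟩, 1)]),
   (4, [(⟨19, 4, 10⟩, 1), (⟨34, 4, 16⟩, 1), (⟨49, 4, 22⟩, 1), (⟨259, 4, 52⟩, 1), (⟨274, 4, 58⟩, 3),
    (⟨289, 4, 64⟩, 3), (⟨304, 4, 70⟩, 1), (⟨514, 4, 100⟩, 1), (⟨529, 4, 106⟩, 3),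
    (⟨544, 4, 112⟩, 1), (⟨769, 4, 148⟩, 1), (⟨784, 4, 154⟩, 1)]),
   (5, [(⟨20, 5, 11⟩, 1), (⟨35, 5, 17⟩, 2), (⟨50, 5, 23⟩, 2), (⟨65, 5, 29⟩, 1), (⟨260, 5, 53⟩, 1),
    (⟨275, 5, 59⟩, 4), (⟨290, 5, 65⟩, 6), (⟨305, 5, 71⟩, 4), (⟨320, 5, 77⟩, 1), (⟨515, 5, 101⟩, 2),
    (⟨530, 5, 107⟩, 6), (⟨545, 5, 113⟩, 6), (⟨560, 5, 119⟩, 2), (⟨770, 5, 149⟩, 2),
    (⟨785, 5, 155⟩, 4), (⟨800, 5, 161⟩, 2), (⟨1025, 5, 197⟩, 1), (⟨1040, 5, 203⟩, 1)]),
   (6, [(⟨21, 6, 12⟩, 1), (⟨36, 6, 18⟩, 2), (⟨51, 6, 24⟩, 3), (⟨66, 6, 30⟩, 2), (⟨81, 6, 36⟩, 1),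
    (⟨261, 6, 54⟩, 1), (⟨276, 6, 60⟩, 5), (⟨291, 6, 66⟩, 10), (⟨306, 6, 72⟩, 10),
    (⟨321, 6, 78⟩, 5), (⟨336, 6, 84⟩, 1), (⟨516, 6, 102⟩, 2), (⟨531, 6, 108⟩, 10),
    (⟨546, 6, 114⟩, 14), (⟨561, 6, 120⟩, 10), (⟨576, 6, 126⟩, 2), (⟨771, 6, 150⟩, 3),
    (⟨786, 6, 156⟩, 10), (⟨801, 6, 162⟩, 10), (⟨816, 6, 168⟩, 3), (⟨1026, 6, 198⟩, 2),
    (⟨1041, 6, 204⟩, 5), (⟨1056, 6, 210⟩, 2), (⟨1281, 6, 246⟩, 1), (⟨1296, 6, 252⟩, 1)]),
   (7, [(⟨22, 7, 13⟩, 1), (⟨37, 7, 19⟩, 3), (⟨52, 7, 25⟩, 5), (⟨67, 7, 31⟩, 5), (⟨82, 7, 37⟩, 3),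
    (⟨97, 7, 43⟩, 1), (⟨262, 7, 55⟩, 1), (⟨277, 7, 61⟩, 6), (⟨292, 7, 67⟩, 15), (⟨307, 7, 73⟩, 20),
    (⟨322, 7, 79⟩, 15), (⟨337, 7, 85⟩, 6), (⟨352, 7, 91⟩, 1), (⟨517, 7, 103⟩, 3),
    (⟨532, 7, 109⟩, 15), (⟨547, 7, 115⟩, 30), (⟨562, 7, 121⟩, 30), (⟨577, 7, 127⟩, 15),
    (⟨592, 7, 133⟩, 3), (⟨772, 7, 151⟩, 5), (⟨787, 7, 157⟩, 20), (⟨802, 7, 163⟩, 30),
    (⟨817, 7, 169⟩, 20), (⟨832, 7, 175⟩, 5), (⟨1027, 7, 199⟩, 5), (⟨1042, 7, 205⟩, 15),
    (⟨1057, 7, 211⟩, 15), (⟨1072, 7, 217⟩, 5), (⟨1282, 7, 247⟩, 3), (⟨1297, 7, 253⟩, 6),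
    (⟨1312, 7, 259⟩, 3), (⟨1537, 7, 295⟩, 1), (⟨1552, 7, 301⟩, 1)])]

theorem expS_SHA : expS SHA = LB.map fun y => (y.1, hdOf y.1 y.2) := by decide +kernel

theorem SHA_sorted : (SHA.map Prod.fst).Pairwise (fun d d' => d ≤ d') := by decide +kernel

/-- sort key of an entry of `LB` -/
def kyL (y : ℕ × ℕ) : ℕ := 4096 * y.1 + (hdOf y.1 y.2).pc

theorem kyL_sorted : LB.Pairwise (fun x y => kyL x ≤ kyL y) := by
  have h : ∀ L : List (ℕ × ℕ), ((L.map kyL).zip (L.map kyL).tail).all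
      (fun x => Nat.ble x.1 x.2) = true → L.Pairwise (fun x y => kyL x ≤ kyL y) := by
    intro L hL
    have h1 : List.IsChain (fun x y : ℕ × ℕ => kyL x ≤ kyL y) L := by
      induction L with
      | nil => exact List.IsChain.nil
      | cons a L ih =>
        cases L with
        | nil => exact List.IsChain.singleton a
        | cons b L =>
          simp only [List.map_cons, List.tail_cons, List.zip_cons_cons, List.all_cons,
            Bool.and_eq_true] at hL ih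
          exact List.IsChain.cons_cons (Nat.le_of_ble_eq_true hL.1) (ih hL.2)
    have : IsTrans (ℕ × ℕ) (fun x y : ℕ × ℕ => kyL x ≤ kyL y) := ⟨fun _ _ _ h1 h2 => h1.trans h2⟩
    exact h1.pairwise
  exact h LB (by decide +kernel)

theorem lbDeg_eq (i : Fin 504) (h : i.val < LB.length) : lbDeg i = LB[i.val].1 := by
  rw [lbDeg, LB_getD _ h]

theorem hd_eq (i : Fin 504) (h : i.val < LB.length) :
    hd i = hdOf LB[i.val].1 LB[i.val].2 := by
  rw [hd, lbDeg, wt, wt, wt, lbWord, LB_getD _ h, hdOf]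

theorem ky_mono (i j : Fin 504) (hij : i ≤ j) :
    4096 * lbDeg i + (hd i).pc ≤ 4096 * lbDeg j + (hd j).pc := by
  have hi : i.val < LB.length := by rw [LB_length]; exact i.isLt
  have hj : j.val < LB.length := by rw [LB_length]; exact j.isLt
  rcases eq_or_lt_of_le hij with rfl | hlt
  · exact le_rfl
  · rw [lbDeg_eq i hi, lbDeg_eq j hj, hd_eq i hi, hd_eq j hj]
    exact List.pairwise_iff_getElem.1 kyL_sorted i.val j.val hi hj hlt

theorem hd_dg (i : Fin 504) : (hd i).dg = lbDeg i := rfl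

/-- bookkeeping: remaining content (packed), remaining degree -/
structure TA where
  R : ℕ
  cap : ℕ

/-- stop (`d5` = degree of the largest element) -/
def stpA (d5 k d : ℕ) (t : TA) : Bool :=
  @Bool.rec (fun _ => Bool)
    (@Bool.rec (fun _ => Bool) (Nat.ble (Nat.succ d5) d) true
      (Nat.ble (Nat.succ t.cap) (Nat.add (Nat.mul (Nat.pred k) d) (Nat.pred d5))))
    true (Nat.ble (Nat.succ t.cap) (Nat.mul k d))

/-- skip: the second largest degree is too small -/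
def skpA (d5 k d : ℕ) (_ : TA) : Bool :=
  @Bool.rec (fun _ => Bool) false (Nat.ble (Nat.succ d) (Nat.pred d5)) (Nat.beq k 1)

/-- content test -/
def cntA (g : Hd) (R : ℕ) : Bool :=
  Nat.beq (Nat.land (Nat.sub (Nat.add R 2184) g.pc) 2184) 2184

/-- group step -/
def grpA (ky _ : ℕ) (g : Hd) (t : TA) (K : TA → Bool) : Bool :=
  @Bool.rec (fun _ => Bool) true
    (@Bool.rec (fun _ => Bool) true
      (frc (Nat.sub t.R g.pc) fun r => frc (Nat.sub t.cap g.dg) fun c => K ⟨r, c⟩)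
      (Nat.ble (Nat.add (Nat.mul 4096 g.dg) g.pc) ky))
    (cntA g t.R)

/-- feasibility -/
def feasA (d5 ky k d : ℕ) (g : Hd) (t : TA) : Bool :=
  and (not (stpA d5 k d t)) (and (not (skpA d5 k d t)) (and (cntA g t.R)
    (Nat.ble (Nat.add (Nat.mul 4096 g.dg) g.pc) ky)))

/-- new bookkeeping state -/
def updA (_ : ℕ) (g : Hd) (t : TA) : TA := ⟨Nat.sub t.R g.pc, Nat.sub t.cap g.dg⟩

section job

variable {ε : Type*}

/-- element step; the data state is a difference list -/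
def eltA (_ : ℕ) (_ : Hd) (e : ε) (t : TA) (s : List ε → List ε)
    (K : TA → (List ε → List ε) → Bool) : Bool :=
  K t (fun l => s (List.cons e l))

/-- search below a fixed largest element `e5` of degree `d5`, sort key `ky` -/
def runA (GA : List (ℕ × List (Hd × List ε))) (leaf : List ε → Bool) (d5 ky : ℕ) (e5 : ε)
    (R cap : ℕ) : Bool :=
  dfs3 (stpA d5) (skpA d5) (grpA ky) eltA (fun _ s => leaf (s (List.cons e5 List.nil))) 5 GA
    ⟨R, cap⟩ (fun l => l)

/-- one job: start block `β`, basis vector `m`, largest element `e` with header `h` -/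
def jobE (GA : List (ℕ × List (Hd × List ε))) (leaf : ℕ → ℕ → List ε → Bool)
    (β m : ℕ) (h : Hd) (e : ε) : Bool :=
  frc (Nat.sub (RB β) h.pc) fun R => frc (Nat.sub (capB β) h.dg) fun cap =>
    frc h.dg fun d5 => frc (Nat.add (Nat.mul 4096 h.dg) h.pc) fun ky =>
      runA GA (leaf β m) d5 ky e R cap

/-- conjunction over a list -/
def allL {α : Type*} (f : α → Bool) (l : List α) : Bool :=
  @List.rec α (fun _ => Bool) true (fun a _ ih => @Bool.rec (fun _ => Bool) false ih (f a)) l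

theorem allL_iff {α : Type*} (f : α → Bool) (l : List α) :
    allL f l = true ↔ ∀ a ∈ l, f a = true := by
  induction l with
  | nil => simp [allL]
  | cons a l ih =>
    have h : allL f (a :: l) = and (f a) (allL f l) := by
      change @Bool.rec (fun _ => Bool) false (allL f l) (f a) = _
      cases f a <;> rfl
    rw [h, Bool.and_eq_true, ih, List.forall_mem_cons]

/-- all jobs with the largest element in the group with packed content `key` -/
def jobK (GA : List (ℕ × List (Hd × List ε))) (leaf : ℕ → ℕ → List ε → Bool)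
    (β m key : ℕ) : Bool :=
  allL (fun c => allL (fun g => @Bool.rec (fun _ => Bool) true
    (allL (fun e => jobE GA leaf β m g.1 e) g.2) (Nat.beq g.1.pc key)) c.2) GA

theorem jobK_iff (GA : List (ℕ × List (Hd × List ε))) (leaf : ℕ → ℕ → List ε → Bool)
    (β m key : ℕ) : jobK GA leaf β m key = true ↔
      ∀ c ∈ GA, ∀ g ∈ c.2, g.1.pc = key → ∀ e ∈ g.2, jobE GA leaf β m g.1 e = true := by
  rw [jobK, allL_iff]
  refine forall₂_congr fun c _ => ?_
  rw [allL_iff]
  refine forall₂_congr fun g _ => ?_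
  by_cases h : g.1.pc = key
  · have h1 : Nat.beq g.1.pc key = true := by rw [h]; exact Nat.beq_refl key
    rw [h1]
    change allL (fun e => jobE GA leaf β m g.1 e) g.2 = true ↔ _
    rw [allL_iff]
    exact ⟨fun h2 _ => h2, fun h2 => h2 h⟩
  · have h1 : Nat.beq g.1.pc key = false := by
      cases h2 : Nat.beq g.1.pc key
      · rfl
      · exact absurd (Nat.eq_of_beq_eq_true h2) h
    rw [h1]
    exact ⟨fun _ h3 => absurd h3 h, fun _ => rfl⟩

/-- the group with packed content `key` -/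
def grpOf (GA : List (ℕ × List (Hd × List ε))) (key : ℕ) : List (Hd × List ε) :=
  (GA.flatMap fun c => c.2).filter fun g => Nat.beq g.1.pc key

/-- a group job from its elements -/
theorem jobK_of (GA : List (ℕ × List (Hd × List ε))) (leaf : ℕ → ℕ → List ε → Bool)
    (β m key : ℕ) (h : Hd) (es : List ε) (hg : grpOf GA key = [(h, es)])
    (he : ∀ e ∈ es, jobE GA leaf β m h e = true) : jobK GA leaf β m key = true := by
  rw [jobK_iff]
  intro c hc g hgc hk e hee
  have h1 : g ∈ grpOf GA key := by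
    rw [grpOf, List.mem_filter, List.mem_flatMap]
    refine ⟨⟨c, hc, hgc⟩, ?_⟩
    rw [hk]
    exact Nat.beq_refl key
  rw [hg, List.mem_singleton] at h1
  subst h1
  exact he e hee

theorem pathA_step (d5 ky k d : ℕ) (g : Hd) (e : ε) (l : List (ℕ × Hd × ε))
    (x y z x' y' z' cap : ℕ) (hg : g.pc = pk x' y' z') (h1 : x' ≤ x) (h2 : y' ≤ y)
    (h3 : z' ≤ z) (hx : x ≤ 6) (hy : y ≤ 6) (hz : z ≤ 6) (hk1 : k * d ≤ cap)
    (hk2 : (k - 1) * d + (d5 - 1) ≤ cap) (hd5 : d ≤ d5) (hs : k = 1 → d5 - 1 ≤ d)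
    (hky : 4096 * g.dg + g.pc ≤ ky)
    (hp : Path3 (feasA d5 ky) updA (fun _ _ _ t => t) (k - 1)
      ⟨pk (x - x') (y - y') (z - z'), cap - g.dg⟩ l) :
    Path3 (feasA d5 ky) updA (fun _ _ _ t => t) k ⟨pk x y z, cap⟩ ((d, g, e) :: l) := by
  have e1 : updA k g ⟨pk x y z, cap⟩ = ⟨pk (x - x') (y - y') (z - z'), cap - g.dg⟩ := by
    rw [updA]
    simp only [hg, pk_sub x y z x' y' z' h1 h2 h3]
    rfl
  refine ⟨?_, ?_⟩
  · change feasA d5 ky k d g ⟨pk x y z, cap⟩ = true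
    rw [feasA, Bool.and_eq_true, Bool.and_eq_true, Bool.and_eq_true, Bool.not_eq_true',
      Bool.not_eq_true']
    refine ⟨?_, ?_, ?_, Nat.ble_eq_true_of_le hky⟩
    · have q1 : Nat.ble (Nat.succ cap) (Nat.mul k d) = false := by
        cases h : Nat.ble (Nat.succ cap) (Nat.mul k d)
        · rfl
        · have : cap + 1 ≤ k * d := Nat.le_of_ble_eq_true h
          omega
      have q2 : Nat.ble (Nat.succ cap) (Nat.add (Nat.mul (Nat.pred k) d) (Nat.pred d5))
          = false := by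
        cases h : Nat.ble (Nat.succ cap) (Nat.add (Nat.mul (Nat.pred k) d) (Nat.pred d5))
        · rfl
        · have : cap + 1 ≤ (k - 1) * d + (d5 - 1) := Nat.le_of_ble_eq_true h
          omega
      have q3 : Nat.ble (Nat.succ d5) d = false := by
        cases h : Nat.ble (Nat.succ d5) d
        · rfl
        · have : d5 + 1 ≤ d := Nat.le_of_ble_eq_true h
          omega
      rw [stpA]
      simp only [q1, q2, q3]
    · rw [skpA]
      cases hb : Nat.beq k 1
      · rfl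
      · have h4 := hs (Nat.eq_of_beq_eq_true hb)
        change Nat.ble (Nat.succ d) (Nat.pred d5) = false
        cases h : Nat.ble (Nat.succ d) (Nat.pred d5)
        · rfl
        · have : d + 1 ≤ d5 - 1 := Nat.le_of_ble_eq_true h
          omega
    · have h := land_guard (x - x') (by omega) (y - y') (by omega) (z - z') (by omega)
      have e : Nat.sub (Nat.add (pk x y z) 2184) (pk x' y' z')
          = 256 * (8 + (x - x')) + 16 * (8 + (y - y')) + (8 + (z - z')) := by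
        change pk x y z + 2184 - pk x' y' z' = _
        simp only [pk]
        omega
      rw [cntA, hg]
      change Nat.beq (Nat.land (Nat.sub (Nat.add (pk x y z) 2184) (pk x' y' z')) 2184) 2184 = true
      rw [e, h]
      rfl
  · change Path3 (feasA d5 ky) updA (fun _ _ _ t => t) (k - 1) (updA k g ⟨pk x y z, cap⟩) l
    rw [e1]
    exact hp

theorem endS3_diff {τ : Type*} (upd : ℕ → Hd → τ → τ) (uel : ℕ → Hd → ε → τ → τ) (k : ℕ)
    (t : τ) (s : List ε → List ε) (l : List (ℕ × Hd × ε)) (r : List ε) :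
    endS3 upd uel (fun _ _ e _ s => fun l => s (e :: l)) k t s l r
      = s ((l.map fun x => x.2.2) ++ r) := by
  induction l generalizing k t s with
  | nil => rfl
  | cons x l ih =>
    rw [endS3, ih]
    rfl

theorem flat3_getA (GA : List (ℕ × List (Hd × List ε))) (hG : shp GA = SHA)
    (TBL : List ε) (hT : (flat3 GA).map (fun x => x.2.2) = TBL) (tb : Fin 504 → ε)
    (htb : ∀ i : Fin 504, TBL[i.val]? = some (tb i)) :
    ∃ hlen : (flat3 GA).length = 504, ∀ (j : ℕ) (hj : j < 504),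
      (flat3 GA)[j]'(by rw [hlen]; exact hj)
        = (lbDeg ⟨j, hj⟩, hd ⟨j, hj⟩, tb ⟨j, hj⟩) := by
  have h1 : (flat3 GA).map (fun x => (x.1, x.2.1)) = LB.map fun y => (y.1, hdOf y.1 y.2) := by
    rw [← expS_SHA, ← hG, expS_shp]
  have hlen : (flat3 GA).length = 504 := by
    have := congrArg List.length h1
    rw [List.length_map, List.length_map, LB_length] at this
    exact this
  refine ⟨hlen, fun j hj => ?_⟩
  have hj' : j < (flat3 GA).length := by rw [hlen]; exact hj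
  have hr : j < LB.length := by rw [LB_length]; exact hj
  have e1 : ((flat3 GA)[j].1, (flat3 GA)[j].2.1) = (LB[j].1, hdOf LB[j].1 LB[j].2) := by
    have h2 : ((flat3 GA).map (fun x => (x.1, x.2.1)))[j]? =
        (LB.map fun y => (y.1, hdOf y.1 y.2))[j]? := by rw [h1]
    rw [List.getElem?_map, List.getElem?_eq_getElem hj', Option.map_some,
      List.getElem?_map, List.getElem?_eq_getElem hr, Option.map_some] at h2
    exact Option.some.inj h2
  have e2 : (flat3 GA)[j].2.2 = tb ⟨j, hj⟩ := by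
    have h2 : ((flat3 GA).map (fun x => x.2.2))[j]? = TBL[j]? := by rw [hT]
    rw [List.getElem?_map, List.getElem?_eq_getElem hj', Option.map_some] at h2
    have h3 := htb ⟨j, hj⟩
    rw [h3] at h2
    exact Option.some.inj h2
  rw [lbDeg_eq ⟨j, hj⟩ hr, hd_eq ⟨j, hj⟩ hr, ← e2]
  have e3 := Prod.ext_iff.1 e1
  exact Prod.ext e3.1 (Prod.ext e3.2 rfl)

/-- **Coverage of one search.** -/
theorem runA_sound (GA : List (ℕ × List (Hd × List ε))) (hG : shp GA = SHA)
    (TBL : List ε) (hT : (flat3 GA).map (fun x => x.2.2) = TBL) (tb : Fin 504 → ε)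
    (htb : ∀ i : Fin 504, TBL[i.val]? = some (tb i)) (leaf : List ε → Bool)
    (a b c cap : ℕ) (ha : a ≤ 6) (hb : b ≤ 6) (hc : c ≤ 6) (cc : Fin 6 → Fin 504)
    (h : runA GA leaf (lbDeg (cc 5)) (4096 * lbDeg (cc 5) + (hd (cc 5)).pc) (tb (cc 5))
      (pk (a - wt 0 (cc 5)) (b - wt 1 (cc 5)) (c - wt 2 (cc 5))) (cap - lbDeg (cc 5)) = true)
    (hm : Monotone cc) (h0 : ∑ i, wt 0 (cc i) ≤ a)
    (h1 : ∑ i, wt 1 (cc i) ≤ b) (h2 : ∑ i, wt 2 (cc i) ≤ c) (hdeg : ∑ i, lbDeg (cc i) ≤ cap)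
    (hbal : lbDeg (cc 5) ≤ lbDeg (cc 4) + 1) :
    leaf ((List.ofFn cc).map tb) = true := by
  obtain ⟨hlen, hget⟩ := flat3_getA GA hG TBL hT tb htb
  have hmono : Monotone fun i : Fin 5 => cc i.castSucc := by
    intro i j hij
    exact hm (Fin.castSucc_le_castSucc_iff.2 hij)
  have hpick := pick_of_monotone' (flat3 GA) 504 hlen _ hmono
    (fun i => (lbDeg i, hd i, tb i)) hget
  have hl : (List.ofFn fun i : Fin 5 => (lbDeg (cc i.castSucc), hd (cc i.castSucc),
        tb (cc i.castSucc)))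
      = [(lbDeg (cc 0), hd (cc 0), tb (cc 0)), (lbDeg (cc 1), hd (cc 1), tb (cc 1)),
        (lbDeg (cc 2), hd (cc 2), tb (cc 2)), (lbDeg (cc 3), hd (cc 3), tb (cc 3)),
        (lbDeg (cc 4), hd (cc 4), tb (cc 4))] := by
    simp [List.ofFn_succ]
  rw [hl] at hpick
  simp only [Fin.sum_univ_six] at h0 h1 h2 hdeg
  have d01 : lbDeg (cc 0) ≤ lbDeg (cc 1) := lbDeg_mono (hm (by decide))
  have d12 : lbDeg (cc 1) ≤ lbDeg (cc 2) := lbDeg_mono (hm (by decide))
  have d23 : lbDeg (cc 2) ≤ lbDeg (cc 3) := lbDeg_mono (hm (by decide))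
  have d34 : lbDeg (cc 3) ≤ lbDeg (cc 4) := lbDeg_mono (hm (by decide))
  have d45 : lbDeg (cc 4) ≤ lbDeg (cc 5) := lbDeg_mono (hm (by decide))
  have k0 := ky_mono _ _ (hm (show (0 : Fin 6) ≤ 5 by decide))
  have k1 := ky_mono _ _ (hm (show (1 : Fin 6) ≤ 5 by decide))
  have k2 := ky_mono _ _ (hm (show (2 : Fin 6) ≤ 5 by decide))
  have k3 := ky_mono _ _ (hm (show (3 : Fin 6) ≤ 5 by decide))
  have k4 := ky_mono _ _ (hm (show (4 : Fin 6) ≤ 5 by decide))
  have hpath : Path3 (feasA (lbDeg (cc 5)) (4096 * lbDeg (cc 5) + (hd (cc 5)).pc)) updA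
      (fun _ _ _ t => t) 5
      ⟨pk (a - wt 0 (cc 5)) (b - wt 1 (cc 5)) (c - wt 2 (cc 5)), cap - lbDeg (cc 5)⟩
      [(lbDeg (cc 0), hd (cc 0), tb (cc 0)), (lbDeg (cc 1), hd (cc 1), tb (cc 1)),
        (lbDeg (cc 2), hd (cc 2), tb (cc 2)), (lbDeg (cc 3), hd (cc 3), tb (cc 3)),
        (lbDeg (cc 4), hd (cc 4), tb (cc 4))] := by
    refine pathA_step _ _ 5 _ _ _ _ _ _ _ _ _ _ _ rfl (by omega) (by omega) (by omega)
      (by omega) (by omega) (by omega) (by omega) (by omega) (by omega) (fun h => by omega) k0 ?_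
    refine pathA_step _ _ 4 _ _ _ _ _ _ _ _ _ _ _ rfl (by omega) (by omega) (by omega)
      (by omega) (by omega) (by omega) ?_ ?_ (by omega) (fun h => by omega) k1 ?_
    · change 4 * lbDeg (cc 1) ≤ cap - lbDeg (cc 5) - lbDeg (cc 0)
      omega
    · change (4 - 1) * lbDeg (cc 1) + (lbDeg (cc 5) - 1) ≤ cap - lbDeg (cc 5) - lbDeg (cc 0)
      omega
    refine pathA_step _ _ 3 _ _ _ _ _ _ _ _ _ _ _ rfl (by omega) (by omega) (by omega)
      (by omega) (by omega) (by omega) ?_ ?_ (by omega) (fun h => by omega) k2 ?_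
    · change 3 * lbDeg (cc 2) ≤ cap - lbDeg (cc 5) - lbDeg (cc 0) - lbDeg (cc 1)
      omega
    · change (3 - 1) * lbDeg (cc 2) + (lbDeg (cc 5) - 1)
        ≤ cap - lbDeg (cc 5) - lbDeg (cc 0) - lbDeg (cc 1)
      omega
    refine pathA_step _ _ 2 _ _ _ _ _ _ _ _ _ _ _ rfl (by omega) (by omega) (by omega)
      (by omega) (by omega) (by omega) ?_ ?_ (by omega) (fun h => by omega) k3 ?_
    · change 2 * lbDeg (cc 3) ≤ cap - lbDeg (cc 5) - lbDeg (cc 0) - lbDeg (cc 1) - lbDeg (cc 2)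
      omega
    · change (2 - 1) * lbDeg (cc 3) + (lbDeg (cc 5) - 1)
        ≤ cap - lbDeg (cc 5) - lbDeg (cc 0) - lbDeg (cc 1) - lbDeg (cc 2)
      omega
    refine pathA_step _ _ 1 _ _ _ _ _ _ _ _ _ _ _ rfl (by omega) (by omega) (by omega)
      (by omega) (by omega) (by omega) ?_ ?_ (by omega) (fun h => by omega) k4 trivial
    · change 1 * lbDeg (cc 4) ≤ cap - lbDeg (cc 5) - lbDeg (cc 0) - lbDeg (cc 1) - lbDeg (cc 2)
        - lbDeg (cc 3)
      omega
    · change (1 - 1) * lbDeg (cc 4) + (lbDeg (cc 5) - 1)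
        ≤ cap - lbDeg (cc 5) - lbDeg (cc 0) - lbDeg (cc 1) - lbDeg (cc 2) - lbDeg (cc 3)
      omega
  have hGA : (GA.map Prod.fst).Pairwise (fun d d' => d ≤ d') := by
    have h3 : GA.map Prod.fst = SHA.map Prod.fst := by
      rw [← hG, shp, List.map_map]
      rfl
    rw [h3]
    exact SHA_sorted
  have key := dfs3_sound (stp := stpA (lbDeg (cc 5))) (skp := skpA (lbDeg (cc 5)))
    (grp := grpA (4096 * lbDeg (cc 5) + (hd (cc 5)).pc))
    (elt := eltA) (fin := fun _ s => leaf (s (List.cons (tb (cc 5)) List.nil)))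
    (feas := feasA (lbDeg (cc 5)) (4096 * lbDeg (cc 5) + (hd (cc 5)).pc)) (upd := updA)
    (uel := fun _ _ _ t => t) (ext := fun _ _ e _ s => fun l => s (e :: l)) (fun d d' => d ≤ d')
    (fun _ => le_rfl)
    (fun k d d' g t hs hdd => by
      have h4 : stpA (lbDeg (cc 5)) k d' t = true := by
        rw [stpA] at hs ⊢
        have m1 : Nat.mul k d ≤ Nat.mul k d' := Nat.mul_le_mul_left k hdd
        have m2 : Nat.mul (Nat.pred k) d ≤ Nat.mul (Nat.pred k) d' :=
          Nat.mul_le_mul_left (Nat.pred k) hdd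
        cases q1 : Nat.ble (Nat.succ t.cap) (Nat.mul k d')
        · have q1' : Nat.ble (Nat.succ t.cap) (Nat.mul k d) = false := by
            cases q : Nat.ble (Nat.succ t.cap) (Nat.mul k d)
            · rfl
            · exfalso
              have := Nat.ble_eq_true_of_le ((Nat.le_of_ble_eq_true q).trans m1)
              rw [q1] at this
              exact Bool.noConfusion this
          rw [q1'] at hs
          change @Bool.rec (fun _ => Bool) (Nat.ble (Nat.succ (lbDeg (cc 5))) d) true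
            (Nat.ble (Nat.succ t.cap) (Nat.add (Nat.mul (Nat.pred k) d)
              (Nat.pred (lbDeg (cc 5))))) = true at hs
          change @Bool.rec (fun _ => Bool) (Nat.ble (Nat.succ (lbDeg (cc 5))) d') true
            (Nat.ble (Nat.succ t.cap) (Nat.add (Nat.mul (Nat.pred k) d')
              (Nat.pred (lbDeg (cc 5))))) = true
          cases q2 : Nat.ble (Nat.succ t.cap) (Nat.add (Nat.mul (Nat.pred k) d')
              (Nat.pred (lbDeg (cc 5))))
          · have q2' : Nat.ble (Nat.succ t.cap) (Nat.add (Nat.mul (Nat.pred k) d)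
                (Nat.pred (lbDeg (cc 5)))) = false := by
              cases q : Nat.ble (Nat.succ t.cap) (Nat.add (Nat.mul (Nat.pred k) d)
                  (Nat.pred (lbDeg (cc 5))))
              · rfl
              · exfalso
                have := Nat.ble_eq_true_of_le ((Nat.le_of_ble_eq_true q).trans
                  (Nat.add_le_add_right m2 _))
                exact Bool.false_ne_true (q2.symm.trans this)
            rw [q2'] at hs
            change Nat.ble (Nat.succ (lbDeg (cc 5))) d = true at hs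
            exact Nat.ble_eq_true_of_le ((Nat.le_of_ble_eq_true hs).trans hdd)
          · rfl
        · rfl
      rw [feasA, h4]
      rfl)
    (fun k d g t hs => by
      rw [feasA, hs]
      cases stpA (lbDeg (cc 5)) k d t <;> rfl)
    (fun k d g t K hs hk => by
      rw [grpA, feasA, hs, hk, frc_eq, frc_eq, updA]
      cases cntA g t.R
      · rfl
      · cases Nat.ble (Nat.add (Nat.mul 4096 g.dg) g.pc)
          (4096 * lbDeg (cc 5) + (hd (cc 5)).pc) <;> rfl)
    (fun k g e t s K => rfl) 5 GA hGA _ (fun l => l) h _ hpick hpath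
  rw [endS3_diff] at key
  rw [show (List.ofFn cc).map tb = [tb (cc 0), tb (cc 1), tb (cc 2), tb (cc 3), tb (cc 4),
    tb (cc 5)] by simp [List.ofFn_succ]]
  exact key

/-- **Coverage.** If all the jobs of `jobsD dd` are true, all leaf tests are true. -/
theorem enumA (GA : List (ℕ × List (Hd × List ε))) (hG : shp GA = SHA)
    (TBL : List ε) (hT : (flat3 GA).map (fun x => x.2.2) = TBL) (tb : Fin 504 → ε)
    (htb : ∀ i : Fin 504, TBL[i.val]? = some (tb i)) (leaf : ℕ → ℕ → List ε → Bool)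
    (dd : ℕ → ℕ) (hjobs : ∀ j ∈ jobsD dd, jobK GA leaf j.1 j.2.1 j.2.2 = true)
    (β : ℕ) (hβ : β < 343) (m : ℕ) (hmd : m < dd β) (cc : Fin 6 → Fin 504)
    (hm : Monotone cc) (h0 : β / 49 + ∑ i, wt 0 (cc i) ≤ 6)
    (h1 : β / 7 % 7 + ∑ i, wt 1 (cc i) ≤ 6) (h2 : β % 7 + ∑ i, wt 2 (cc i) ≤ 6)
    (hdeg : 2 * (β / 49 + β / 7 % 7 + β % 7) + ∑ i, lbDeg (cc i) ≤ 18)
    (hbal : lbDeg (cc 5) ≤ lbDeg (cc 4) + 1) :
    leaf β m ((List.ofFn cc).map tb) = true := by
  have p0 := lbDeg_pos (cc 0)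
  have p1 := lbDeg_pos (cc 1)
  have p2 := lbDeg_pos (cc 2)
  have p3 := lbDeg_pos (cc 3)
  have hdeg' := hdeg
  have h0' := h0
  have h1' := h1
  have h2' := h2
  simp only [Fin.sum_univ_six] at hdeg' h0' h1' h2'
  have hlev : β / 49 + β / 7 % 7 + β % 7 ≤ 6 := by
    have p4 := lbDeg_pos (cc 4)
    have p5 := lbDeg_pos (cc 5)
    omega
  have hcnt : cntD (hd (cc 5)) ⟨RB β, 0, 0⟩ = true := by
    have h := land_guard (6 - β / 49 - wt 0 (cc 5)) (by omega)
      (6 - β / 7 % 7 - wt 1 (cc 5)) (by omega) (6 - β % 7 - wt 2 (cc 5)) (by omega)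
    have e : Nat.sub (Nat.add (RB β) 2184) (hd (cc 5)).pc
        = 256 * (8 + (6 - β / 49 - wt 0 (cc 5))) + 16 * (8 + (6 - β / 7 % 7 - wt 1 (cc 5)))
          + (8 + (6 - β % 7 - wt 2 (cc 5))) := by
      change pk (6 - β / 49) (6 - β / 7 % 7) (6 - β % 7) + 2184
        - pk (wt 0 (cc 5)) (wt 1 (cc 5)) (wt 2 (cc 5)) = _
      simp only [pk]
      omega
    rw [cntD, e, h]
    rfl
  have hjob : (β, m, (hd (cc 5)).pc) ∈ jobsD dd := by
    rw [jobsD, List.mem_flatMap]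
    refine ⟨β, List.mem_range.2 hβ, ?_⟩
    rw [if_pos hlev, List.mem_flatMap]
    refine ⟨m, List.mem_range.2 hmd, ?_⟩
    rw [List.mem_map]
    refine ⟨(hd (cc 5)).pc, ?_, rfl⟩
    rw [keysD, List.mem_filterMap]
    refine ⟨hd (cc 5), hd_mem _, ?_⟩
    rw [if_pos]
    refine ⟨?_, hcnt⟩
    change 2 * lbDeg (cc 5) + 3 ≤ capB β
    rw [capB]
    omega
  have h60 := hjobs _ hjob
  dsimp only at h60
  have h6 := (jobK_iff GA leaf β m _).1 h60
  obtain ⟨hlen, hget⟩ := flat3_getA GA hG TBL hT tb htb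
  have h7 : (lbDeg (cc 5), hd (cc 5), tb (cc 5)) ∈ flat3 GA := by
    have hlt : (cc 5).val < (flat3 GA).length := by
      rw [hlen]
      exact (cc 5).isLt
    have h70 := List.getElem_mem hlt
    rw [hget (cc 5).val (cc 5).isLt] at h70
    exact h70
  rw [flat3, List.mem_flatMap] at h7
  obtain ⟨cl, hcl, h8⟩ := h7
  obtain ⟨x, hx, h9⟩ := List.mem_map.1 h8
  rw [flat, List.mem_flatMap] at hx
  obtain ⟨g, hg, h10⟩ := hx
  obtain ⟨e, he, h11⟩ := List.mem_map.1 h10
  have h12 : g.1 = hd (cc 5) ∧ e = tb (cc 5) := by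
    rw [← h11] at h9
    have := (Prod.ext_iff.1 h9).2
    exact ⟨(Prod.ext_iff.1 this).1, (Prod.ext_iff.1 this).2⟩
  have h13 := h6 cl hcl g hg (congrArg Hd.pc h12.1) e he
  rw [h12.1, h12.2, jobE, frc_eq, frc_eq, frc_eq, frc_eq] at h13
  refine runA_sound GA hG TBL hT tb htb (leaf β m) (6 - β / 49) (6 - β / 7 % 7) (6 - β % 7)
    (capB β) (Nat.sub_le _ _) (Nat.sub_le _ _) (Nat.sub_le _ _) cc ?_ hm (by omega) (by omega)
    (by omega) (by rw [capB]; omega) hbal
  have h14 : Nat.sub (RB β) (hd (cc 5)).pc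
      = pk (6 - β / 49 - wt 0 (cc 5)) (6 - β / 7 % 7 - wt 1 (cc 5)) (6 - β % 7 - wt 2 (cc 5)) :=
    pk_sub _ _ _ _ _ _ (by omega) (by omega) (by omega)
  rw [h14, hd_dg] at h13
  exact h13

end job

end Pool.Agent.Work.MP_bde882_al.H69
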