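import Pool.Agent.Work.MP_bde882_al_h69.Enum2
import Pool.Agent.Work.MP_bde882_al_h69.Dfs3

/-!
# Enumeration of the multisets of six Lie elements, largest element first

`GD` is any list of candidates (classes = degrees, groups = contents, elements of any type `ε`) in
descending order with the shape `SHD`; the leaf test is applied to the ascending list of elements.
-/

set_option autoImplicit false

namespace Pool.Agent.Work.MP_bde882_al.H69

/-- classes (degree), groups (header, number of elements), in descending order -/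
def SHD : List (ℕ × List (Hd × ℕ)) :=
  [(7, [(⟨1552, 7, 301⟩, 1), (⟨1537, 7, 295⟩, 1), (⟨1312, 7, 259⟩, 3), (⟨1297, 7, 253⟩, 6),
    (⟨1282, 7, 247⟩, 3), (⟨1072, 7, 217⟩, 5), (⟨1057, 7, 211⟩, 15), (⟨1042, 7, 205⟩, 15),
    (⟨1027, 7, 199⟩, 5), (⟨832, 7, 175⟩, 5), (⟨817, 7, 169⟩, 20), (⟨802, 7, 163⟩, 30),
    (⟨787, 7, 157⟩, 20), (⟨772, 7, 151⟩, 5), (⟨592, 7, 133⟩, 3), (⟨577, 7, 127⟩, 15),
    (⟨562, 7, 121⟩, 30), (⟨547, 7, 115⟩, 30), (⟨532, 7, 109⟩, 15), (⟨517, 7, 103⟩, 3),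
    (⟨352, 7, 91⟩, 1), (⟨337, 7, 85⟩, 6), (⟨322, 7, 79⟩, 15), (⟨307, 7, 73⟩, 20),
    (⟨292, 7, 67⟩, 15), (⟨277, 7, 61⟩, 6), (⟨262, 7, 55⟩, 1), (⟨97, 7, 43⟩, 1), (⟨82, 7, 37⟩, 3),
    (⟨67, 7, 31⟩, 5), (⟨52, 7, 25⟩, 5), (⟨37, 7, 19⟩, 3), (⟨22, 7, 13⟩, 1)]),
   (6, [(⟨1296, 6, 252⟩, 1), (⟨1281, 6, 246⟩, 1), (⟨1056, 6, 210⟩, 2), (⟨1041, 6, 204⟩, 5),
    (⟨1026, 6, 198⟩, 2), (⟨816, 6, 168⟩, 3), (⟨801, 6, 162⟩, 10), (⟨786, 6, 156⟩, 10),
    (⟨771, 6, 150⟩, 3), (⟨576, 6, 126⟩, 2), (⟨561, 6, 120⟩, 10), (⟨546, 6, 114⟩, 14),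
    (⟨531, 6, 108⟩, 10), (⟨516, 6, 102⟩, 2), (⟨336, 6, 84⟩, 1), (⟨321, 6, 78⟩, 5),
    (⟨306, 6, 72⟩, 10), (⟨291, 6, 66⟩, 10), (⟨276, 6, 60⟩, 5), (⟨261, 6, 54⟩, 1), (⟨81, 6, 36⟩, 1),
    (⟨66, 6, 30⟩, 2), (⟨51, 6, 24⟩, 3), (⟨36, 6, 18⟩, 2), (⟨21, 6, 12⟩, 1)]),
   (5, [(⟨1040, 5, 203⟩, 1), (⟨1025, 5, 197⟩, 1), (⟨800, 5, 161⟩, 2), (⟨785, 5, 155⟩, 4),
    (⟨770, 5, 149⟩, 2), (⟨560, 5, 119⟩, 2), (⟨545, 5, 113⟩, 6), (⟨530, 5, 107⟩, 6),
    (⟨515, 5, 101⟩, 2), (⟨320, 5, 77⟩, 1), (⟨305, 5, 71⟩, 4), (⟨290, 5, 65⟩, 6), (⟨275, 5, 59⟩, 4),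
    (⟨260, 5, 53⟩, 1), (⟨65, 5, 29⟩, 1), (⟨50, 5, 23⟩, 2), (⟨35, 5, 17⟩, 2), (⟨20, 5, 11⟩, 1)]),
   (4, [(⟨784, 4, 154⟩, 1), (⟨769, 4, 148⟩, 1), (⟨544, 4, 112⟩, 1), (⟨529, 4, 106⟩, 3),
    (⟨514, 4, 100⟩, 1), (⟨304, 4, 70⟩, 1), (⟨289, 4, 64⟩, 3), (⟨274, 4, 58⟩, 3), (⟨259, 4, 52⟩, 1),
    (⟨49, 4, 22⟩, 1), (⟨34, 4, 16⟩, 1), (⟨19, 4, 10⟩, 1)]),
   (3, [(⟨528, 3, 105⟩, 1), (⟨513, 3, 99⟩, 1), (⟨288, 3, 63⟩, 1), (⟨273, 3, 57⟩, 2), (⟨258, 3, 51⟩, 1),
    (⟨33, 3, 15⟩, 1), (⟨18, 3, 9⟩, 1)]),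
   (2, [(⟨17, 2, 8⟩, 1)]),
   (1, [(⟨256, 1, 49⟩, 1)])]

/-- header of a word -/
def hdOf (d n : ℕ) : Hd :=
  ⟨pk ((dec d n).count 0) ((dec d n).count 1) ((dec d n).count 2), d,
    49 * (dec d n).count 0 + 7 * (dec d n).count 1 + (dec d n).count 2⟩

/-- all headers, with repetitions -/
def expS (S : List (ℕ × List (Hd × ℕ))) : List (ℕ × Hd) :=
  S.flatMap fun c => c.2.flatMap fun g => List.replicate g.2 (c.1, g.1)

theorem expS_SHD : expS SHD = (LB.map fun y => (y.1, hdOf y.1 y.2)).reverse := by decide +kernel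

theorem SHD_sorted : (SHD.map Prod.fst).Pairwise (fun d d' => d' ≤ d) := by decide +kernel

section shape

variable {ε : Type*}

/-- shape of a list of candidates -/
def shp (G : List (ℕ × List (Hd × List ε))) : List (ℕ × List (Hd × ℕ)) :=
  G.map fun c => (c.1, c.2.map fun g => (g.1, g.2.length))

theorem expS_shp (G : List (ℕ × List (Hd × List ε))) :
    expS (shp G) = (flat3 G).map fun x => (x.1, x.2.1) := by
  induction G with
  | nil => rfl
  | cons c G ih =>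
    obtain ⟨d, gs⟩ := c
    have h1 : expS (shp ((d, gs) :: G))
        = (gs.map fun g => (g.1, g.2.length)).flatMap (fun g => List.replicate g.2 (d, g.1))
          ++ expS (shp G) := rfl
    rw [h1, ih, flat3_cons, List.map_append]
    congr 1
    induction gs with
    | nil => rfl
    | cons g gs ihg =>
      obtain ⟨g, es⟩ := g
      rw [List.map_cons, List.flatMap_cons, ihg (by rfl), flat_cons, List.map_append,
        List.map_append]
      congr 1
      simp only [List.map_map]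
      symm
      rw [List.eq_replicate_iff]
      refine ⟨by simp, ?_⟩
      intro b hb
      obtain ⟨e, _, rfl⟩ := List.mem_map.1 hb
      rfl

end shape

/-- bookkeeping: remaining content (packed), remaining degree, smallest allowed degree -/
structure TD where
  R : ℕ
  cap : ℕ
  mn : ℕ

/-- stop: all the remaining degrees are too small -/
def stpD (_ : ℕ) (d : ℕ) (t : TD) : Bool := Nat.ble (Nat.succ d) t.mn

/-- skip: the degree is too large -/
def skpD (k d : ℕ) (t : TD) : Bool := Nat.ble (Nat.add t.cap 2) (Nat.add d k)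

/-- content test -/
def cntD (g : Hd) (t : TD) : Bool :=
  Nat.beq (Nat.land (Nat.sub (Nat.add t.R 2184) g.pc) 2184) 2184

/-- test of the first group -/
def keyD (key k : ℕ) (g : Hd) : Bool :=
  @Bool.rec (fun _ => Bool) true (Nat.beq g.pc key) (Nat.beq k 6)

/-- new smallest degree -/
def mnD (k : ℕ) (g : Hd) : ℕ := @Bool.rec (fun _ => ℕ) 0 (Nat.pred g.dg) (Nat.beq k 6)

/-- group step -/
def grpD (key k : ℕ) (g : Hd) (t : TD) (K : TD → Bool) : Bool :=
  @Bool.rec (fun _ => Bool) true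
    (@Bool.rec (fun _ => Bool) true
      (frc (Nat.sub t.R g.pc) fun r => frc (Nat.sub t.cap g.dg) fun c => frc (mnD k g) fun m =>
        K ⟨r, c, m⟩)
      (keyD key k g))
    (cntD g t)

/-- feasibility -/
def feasD (key k d : ℕ) (g : Hd) (t : TD) : Bool :=
  and (not (stpD k d t)) (and (not (skpD k d t)) (and (cntD g t) (keyD key k g)))

/-- new bookkeeping state -/
def updD (k : ℕ) (g : Hd) (t : TD) : TD := ⟨Nat.sub t.R g.pc, Nat.sub t.cap g.dg, mnD k g⟩

/-- element step -/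
def eltD {ε : Type*} (_ : ℕ) (_ : Hd) (e : ε) (t : TD) (s : List ε)
    (K : TD → List ε → Bool) : Bool :=
  K t (List.cons e s)

/-- search with a fixed first group (packed content `key`) -/
def runD {ε : Type*} (GD : List (ℕ × List (Hd × List ε))) (leaf : List ε → Bool)
    (key R cap : ℕ) : Bool :=
  dfs3 stpD skpD (grpD key) eltD (fun _ s => leaf s) 6 GD ⟨R, cap, 0⟩ []

/-- one job: start block `β`, basis vector `m`, packed content of the largest element `key` -/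
def jobD {ε : Type*} (GD : List (ℕ × List (Hd × List ε))) (leaf : ℕ → ℕ → List ε → Bool)
    (β m key : ℕ) : Bool :=
  frc (RB β) fun R => frc (capB β) fun cap => runD GD (leaf β m) key R cap

theorem path3_step (key k d : ℕ) (g : Hd) {ε : Type*} (e : ε) (l : List (ℕ × Hd × ε))
    (x y z x' y' z' cap mn : ℕ) (hg : g.pc = pk x' y' z') (h1 : x' ≤ x) (h2 : y' ≤ y)
    (h3 : z' ≤ z) (hx : x ≤ 6) (hy : y ≤ 6) (hz : z ≤ 6) (hm : mn ≤ d)
    (hk : d + k ≤ cap + 1) (ha : k = 6 → g.pc = key)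
    (hp : Path3 (feasD key) updD (fun _ _ _ t => t) (k - 1)
      ⟨pk (x - x') (y - y') (z - z'), cap - g.dg, mnD k g⟩ l) :
    Path3 (feasD key) updD (fun _ _ _ t => t) k ⟨pk x y z, cap, mn⟩ ((d, g, e) :: l) := by
  have e1 : updD k g ⟨pk x y z, cap, mn⟩
      = ⟨pk (x - x') (y - y') (z - z'), cap - g.dg, mnD k g⟩ := by
    rw [updD]
    simp only [hg, pk_sub x y z x' y' z' h1 h2 h3]
    rfl
  refine ⟨?_, ?_⟩
  · change feasD key k d g ⟨pk x y z, cap, mn⟩ = true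
    rw [feasD, Bool.and_eq_true, Bool.and_eq_true, Bool.and_eq_true, Bool.not_eq_true',
      Bool.not_eq_true']
    refine ⟨?_, ?_, ?_, ?_⟩
    · cases h : stpD k d ⟨pk x y z, cap, mn⟩
      · rfl
      · have : d + 1 ≤ mn := Nat.le_of_ble_eq_true h
        omega
    · cases h : skpD k d ⟨pk x y z, cap, mn⟩
      · rfl
      · have : cap + 2 ≤ d + k := Nat.le_of_ble_eq_true h
        omega
    · have h := land_guard (x - x') (by omega) (y - y') (by omega) (z - z') (by omega)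
      have e : Nat.sub (Nat.add (pk x y z) 2184) (pk x' y' z')
          = 256 * (8 + (x - x')) + 16 * (8 + (y - y')) + (8 + (z - z')) := by
        change pk x y z + 2184 - pk x' y' z' = _
        simp only [pk]
        omega
      rw [cntD, hg]
      change Nat.beq (Nat.land (Nat.sub (Nat.add (pk x y z) 2184) (pk x' y' z')) 2184) 2184 = true
      rw [e, h]
      rfl
    · rw [keyD]
      cases hk1 : Nat.beq k 6
      · rfl
      · have h4 := ha (Nat.eq_of_beq_eq_true hk1)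
        change Nat.beq g.pc key = true
        rw [h4]
        exact Nat.beq_refl key
  · change Path3 (feasD key) updD (fun _ _ _ t => t) (k - 1) (updD k g ⟨pk x y z, cap, mn⟩) l
    rw [e1]
    exact hp

theorem endS3_cons {ε τ : Type*} (upd : ℕ → Hd → τ → τ) (uel : ℕ → Hd → ε → τ → τ) (k : ℕ)
    (t : τ) (s : List ε) (l : List (ℕ × Hd × ε)) :
    endS3 upd uel (fun _ _ e _ s => e :: s) k t s l = (l.map fun x => x.2.2).reverse ++ s := by
  induction l generalizing k t s with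
  | nil => rfl
  | cons x l ih =>
    rw [endS3, ih, List.map_cons, List.reverse_cons, List.append_assoc]
    rfl

theorem flat3_get {ε : Type*} (GD : List (ℕ × List (Hd × List ε))) (hG : shp GD = SHD)
    (TBL : List ε) (hT : (flat3 GD).map (fun x => x.2.2) = TBL.reverse) (tb : Fin 504 → ε)
    (htb : ∀ i : Fin 504, TBL[i.val]? = some (tb i)) :
    ∃ hlen : (flat3 GD).length = 504, ∀ (j : ℕ) (hj : j < 504),
      (flat3 GD)[j]'(by rw [hlen]; exact hj)
        = (lbDeg (Fin.rev ⟨j, hj⟩), hd (Fin.rev ⟨j, hj⟩), tb (Fin.rev ⟨j, hj⟩)) := by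
  have h1 : (flat3 GD).map (fun x => (x.1, x.2.1))
      = (LB.map fun y => (y.1, hdOf y.1 y.2)).reverse := by
    rw [← expS_SHD, ← hG, expS_shp]
  have hlen : (flat3 GD).length = 504 := by
    have := congrArg List.length h1
    rw [List.length_map, List.length_reverse, List.length_map, LB_length] at this
    exact this
  have hTL : TBL.length = 504 := by
    have := congrArg List.length hT
    rw [List.length_map, List.length_reverse, hlen] at this
    exact this.symm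
  refine ⟨hlen, fun j hj => ?_⟩
  have hj' : j < (flat3 GD).length := by rw [hlen]; exact hj
  have hr : 503 - j < LB.length := by rw [LB_length]; omega
  have e1 : ((flat3 GD)[j].1, (flat3 GD)[j].2.1)
      = (LB[503 - j].1, hdOf LB[503 - j].1 LB[503 - j].2) := by
    have h2 : ((flat3 GD).map (fun x => (x.1, x.2.1)))[j]? =
        ((LB.map fun y => (y.1, hdOf y.1 y.2)).reverse)[j]? := by rw [h1]
    rw [List.getElem?_map, List.getElem?_eq_getElem hj', Option.map_some,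
      List.getElem?_reverse (by rw [List.length_map, LB_length]; exact hj), List.length_map,
      LB_length, List.getElem?_map, show 504 - 1 - j = 503 - j by omega,
      List.getElem?_eq_getElem hr, Option.map_some] at h2
    exact Option.some.inj h2
  have e2 : (flat3 GD)[j].2.2 = tb (Fin.rev ⟨j, hj⟩) := by
    have h2 : ((flat3 GD).map (fun x => x.2.2))[j]? = (TBL.reverse)[j]? := by rw [hT]
    rw [List.getElem?_map, List.getElem?_eq_getElem hj', Option.map_some,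
      List.getElem?_reverse (by rw [hTL]; exact hj), hTL] at h2
    have h3 := htb (Fin.rev ⟨j, hj⟩)
    have h4 : (Fin.rev (⟨j, hj⟩ : Fin 504)).val = 504 - 1 - j := by
      rw [Fin.val_rev]
      change 504 - (j + 1) = 504 - 1 - j
      omega
    rw [h4] at h3
    rw [h3] at h2
    exact Option.some.inj h2
  have hv : (Fin.rev (⟨j, hj⟩ : Fin 504)).val = 503 - j := by
    rw [Fin.val_rev]
    change 504 - (j + 1) = 503 - j
    omega
  have hD : lbDeg (Fin.rev ⟨j, hj⟩) = LB[503 - j].1 := by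
    rw [lbDeg, hv, LB_getD _ hr]
  have hW : lbWord (Fin.rev ⟨j, hj⟩) = dec LB[503 - j].1 LB[503 - j].2 := by
    rw [lbWord, hv, LB_getD _ hr]
  have hH : hd (Fin.rev ⟨j, hj⟩) = hdOf LB[503 - j].1 LB[503 - j].2 := by
    simp only [hd, hdOf, wt, hW, hD]
  rw [hD, hH, ← e2]
  have e3 := Prod.ext_iff.1 e1
  exact Prod.ext e3.1 (Prod.ext e3.2 rfl)

/-- **Coverage of one search.** -/
theorem runD_sound {ε : Type*} (GD : List (ℕ × List (Hd × List ε))) (hG : shp GD = SHD)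
    (TBL : List ε) (hT : (flat3 GD).map (fun x => x.2.2) = TBL.reverse) (tb : Fin 504 → ε)
    (htb : ∀ i : Fin 504, TBL[i.val]? = some (tb i)) (leaf : List ε → Bool)
    (a b c cap : ℕ) (ha : a ≤ 6) (hb : b ≤ 6) (hc : c ≤ 6) (cc : Fin 6 → Fin 504)
    (h : runD GD leaf (hd (cc 5)).pc (pk a b c) cap = true)
    (hm : Monotone cc) (h0 : ∑ i, wt 0 (cc i) ≤ a)
    (h1 : ∑ i, wt 1 (cc i) ≤ b) (h2 : ∑ i, wt 2 (cc i) ≤ c) (hdeg : ∑ i, lbDeg (cc i) ≤ cap)
    (hbal : lbDeg (cc 5) ≤ lbDeg (cc 4) + 1) :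
    leaf ((List.ofFn cc).map tb) = true := by
  obtain ⟨hlen, hget⟩ := flat3_get GD hG TBL hT tb htb
  have hmono : Monotone fun i : Fin 6 => Fin.rev (cc (Fin.rev i)) := by
    intro i j hij
    exact Fin.rev_le_rev.2 (hm (Fin.rev_le_rev.2 hij))
  have hpick := pick_of_monotone' (flat3 GD) 504 hlen _ hmono
    (fun i => (lbDeg (Fin.rev i), hd (Fin.rev i), tb (Fin.rev i))) hget
  simp only [Fin.rev_rev] at hpick
  have hl : (List.ofFn fun i : Fin 6 => (lbDeg (cc (Fin.rev i)), hd (cc (Fin.rev i)),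
        tb (cc (Fin.rev i))))
      = [(lbDeg (cc 5), hd (cc 5), tb (cc 5)), (lbDeg (cc 4), hd (cc 4), tb (cc 4)),
        (lbDeg (cc 3), hd (cc 3), tb (cc 3)), (lbDeg (cc 2), hd (cc 2), tb (cc 2)),
        (lbDeg (cc 1), hd (cc 1), tb (cc 1)), (lbDeg (cc 0), hd (cc 0), tb (cc 0))] := by
    simp [List.ofFn_succ, Fin.rev]
  rw [hl] at hpick
  simp only [Fin.sum_univ_six] at h0 h1 h2 hdeg
  have d01 : lbDeg (cc 0) ≤ lbDeg (cc 1) := lbDeg_mono (hm (by decide))
  have d12 : lbDeg (cc 1) ≤ lbDeg (cc 2) := lbDeg_mono (hm (by decide))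
  have d23 : lbDeg (cc 2) ≤ lbDeg (cc 3) := lbDeg_mono (hm (by decide))
  have d34 : lbDeg (cc 3) ≤ lbDeg (cc 4) := lbDeg_mono (hm (by decide))
  have d45 : lbDeg (cc 4) ≤ lbDeg (cc 5) := lbDeg_mono (hm (by decide))
  have p0 := lbDeg_pos (cc 0)
  have hpath : Path3 (feasD (hd (cc 5)).pc) updD (fun _ _ _ t => t) 6 ⟨pk a b c, cap, 0⟩
      [(lbDeg (cc 5), hd (cc 5), tb (cc 5)), (lbDeg (cc 4), hd (cc 4), tb (cc 4)),
        (lbDeg (cc 3), hd (cc 3), tb (cc 3)), (lbDeg (cc 2), hd (cc 2), tb (cc 2)),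
        (lbDeg (cc 1), hd (cc 1), tb (cc 1)), (lbDeg (cc 0), hd (cc 0), tb (cc 0))] := by
    refine path3_step _ 6 _ _ _ _ a b c _ _ _ cap 0 rfl (by omega) (by omega) (by omega) ha hb hc
      (Nat.zero_le _) (by omega) (fun _ => rfl) ?_
    refine path3_step _ 5 _ _ _ _ _ _ _ _ _ _ _ _ rfl (by omega) (by omega) (by omega)
      (by omega) (by omega) (by omega) ?_ ?_ (fun h => absurd h (by decide)) ?_
    · change Nat.pred (lbDeg (cc 5)) ≤ lbDeg (cc 4)
      rw [Nat.pred_eq_sub_one]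
      omega
    · change lbDeg (cc 4) + 5 ≤ cap - lbDeg (cc 5) + 1
      omega
    refine path3_step _ 4 _ _ _ _ _ _ _ _ _ _ _ _ rfl (by omega) (by omega) (by omega)
      (by omega) (by omega) (by omega) (Nat.zero_le _) ?_ (fun h => absurd h (by decide)) ?_
    · change lbDeg (cc 3) + 4 ≤ cap - lbDeg (cc 5) - lbDeg (cc 4) + 1
      omega
    refine path3_step _ 3 _ _ _ _ _ _ _ _ _ _ _ _ rfl (by omega) (by omega) (by omega)
      (by omega) (by omega) (by omega) (Nat.zero_le _) ?_ (fun h => absurd h (by decide)) ?_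
    · change lbDeg (cc 2) + 3 ≤ cap - lbDeg (cc 5) - lbDeg (cc 4) - lbDeg (cc 3) + 1
      omega
    refine path3_step _ 2 _ _ _ _ _ _ _ _ _ _ _ _ rfl (by omega) (by omega) (by omega)
      (by omega) (by omega) (by omega) (Nat.zero_le _) ?_ (fun h => absurd h (by decide)) ?_
    · change lbDeg (cc 1) + 2 ≤ cap - lbDeg (cc 5) - lbDeg (cc 4) - lbDeg (cc 3)
        - lbDeg (cc 2) + 1
      omega
    refine path3_step _ 1 _ _ _ _ _ _ _ _ _ _ _ _ rfl (by omega) (by omega) (by omega)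
      (by omega) (by omega) (by omega) (Nat.zero_le _) ?_ (fun h => absurd h (by decide)) trivial
    · change lbDeg (cc 0) + 1 ≤ cap - lbDeg (cc 5) - lbDeg (cc 4) - lbDeg (cc 3)
        - lbDeg (cc 2) - lbDeg (cc 1) + 1
      omega
  have hGD : (GD.map Prod.fst).Pairwise (fun d d' => d' ≤ d) := by
    have h3 : GD.map Prod.fst = SHD.map Prod.fst := by
      rw [← hG, shp, List.map_map]
      rfl
    rw [h3]
    exact SHD_sorted
  have key := dfs3_sound (stp := stpD) (skp := skpD) (grp := grpD (hd (cc 5)).pc)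
    (elt := eltD) (fin := fun _ s => leaf s) (feas := feasD (hd (cc 5)).pc) (upd := updD)
    (uel := fun _ _ _ t => t) (ext := fun _ _ e _ s => e :: s) (fun d d' => d' ≤ d)
    (fun _ => le_rfl)
    (fun k d d' g t hs hdd => by
      have h4 : stpD k d' t = true := by
        have h5 : d + 1 ≤ t.mn := Nat.le_of_ble_eq_true hs
        exact Nat.ble_eq_true_of_le (show d' + 1 ≤ t.mn by omega)
      rw [feasD, h4]
      rfl)
    (fun k d g t hs => by
      rw [feasD, hs]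
      cases stpD k d t <;> rfl)
    (fun k d g t K hs hk => by
      rw [grpD, feasD, hs, hk, frc_eq, frc_eq, frc_eq, updD]
      cases cntD g t
      · rfl
      · cases keyD (hd (cc 5)).pc k g <;> rfl)
    (fun k g e t s K => rfl) 6 GD hGD ⟨pk a b c, cap, 0⟩ [] h _ hpick hpath
  rw [endS3_cons] at key
  rw [show (List.ofFn cc).map tb = [tb (cc 0), tb (cc 1), tb (cc 2), tb (cc 3), tb (cc 4),
    tb (cc 5)] by simp [List.ofFn_succ]]
  exact key

/-- the keys which are needed for the start block `β` -/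
def keysD (β : ℕ) : List ℕ :=
  (SHD.flatMap fun c => c.2.map Prod.fst).filterMap fun g =>
    if 2 * g.dg + 3 ≤ capB β ∧ cntD g ⟨RB β, 0, 0⟩ = true then some g.pc else none

/-- the list of all jobs -/
def jobsD (dd : ℕ → ℕ) : List (ℕ × ℕ × ℕ) :=
  (List.range 343).flatMap fun β =>
    if β / 49 + β / 7 % 7 + β % 7 ≤ 6 then
      (List.range (dd β)).flatMap fun m => (keysD β).map fun key => (β, m, key)
    else []

theorem hd_mem (i : Fin 504) : hd i ∈ SHD.flatMap fun c => c.2.map Prod.fst := by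
  have hL : i.val < LB.length := by rw [LB_length]; exact i.isLt
  have h1 : (lbDeg i, hd i) ∈ expS SHD := by
    rw [expS_SHD, List.mem_reverse, List.mem_map]
    refine ⟨LB[i.val], List.getElem_mem hL, ?_⟩
    rw [hd, lbDeg, wt, wt, wt, lbWord, LB_getD _ hL, hdOf]
  rw [expS, List.mem_flatMap] at h1
  obtain ⟨cl, hc, h2⟩ := h1
  rw [List.mem_flatMap] at h2
  obtain ⟨g, hg, h3⟩ := h2
  have h4 := List.eq_of_mem_replicate h3
  rw [List.mem_flatMap]
  refine ⟨cl, hc, ?_⟩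
  rw [List.mem_map]
  exact ⟨g, hg, (Prod.ext_iff.1 h4).2.symm⟩

/-- **Coverage.** If all the jobs of `jobsD dd` are true, all leaf tests are true. -/
theorem enumD {ε : Type*} (GD : List (ℕ × List (Hd × List ε))) (hG : shp GD = SHD)
    (TBL : List ε) (hT : (flat3 GD).map (fun x => x.2.2) = TBL.reverse) (tb : Fin 504 → ε)
    (htb : ∀ i : Fin 504, TBL[i.val]? = some (tb i)) (leaf : ℕ → ℕ → List ε → Bool)
    (dd : ℕ → ℕ) (hjobs : ∀ j ∈ jobsD dd, jobD GD leaf j.1 j.2.1 j.2.2 = true)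
    (β : ℕ) (hβ : β < 343) (m : ℕ) (hmd : m < dd β) (cc : Fin 6 → Fin 504)
    (hm : Monotone cc) (h0 : β / 49 + ∑ i, wt 0 (cc i) ≤ 6)
    (h1 : β / 7 % 7 + ∑ i, wt 1 (cc i) ≤ 6) (h2 : β % 7 + ∑ i, wt 2 (cc i) ≤ 6)
    (hdeg : 2 * (β / 49 + β / 7 % 7 + β % 7) + ∑ i, lbDeg (cc i) ≤ 18)
    (hbal : lbDeg (cc 5) ≤ lbDeg (cc 4) + 1) :
    leaf β m ((List.ofFn cc).map tb) = true := by
  have p0 := lbDeg_pos (cc 0)
  have p1 := lbDeg_pos (cc 1)
  have p2 := lbDeg_pos (cc 2)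
  have p3 := lbDeg_pos (cc 3)
  have hdeg' := hdeg
  have h0' := h0
  have h1' := h1
  have h2' := h2
  simp only [Fin.sum_univ_six] at hdeg' h0' h1' h2'
  have hlev : β / 49 + β / 7 % 7 + β % 7 ≤ 6 := by
    have p4 := lbDeg_pos (cc 4)
    have p5 := lbDeg_pos (cc 5)
    omega
  have hjob : (β, m, (hd (cc 5)).pc) ∈ jobsD dd := by
    rw [jobsD, List.mem_flatMap]
    refine ⟨β, List.mem_range.2 hβ, ?_⟩
    rw [if_pos hlev, List.mem_flatMap]
    refine ⟨m, List.mem_range.2 hmd, ?_⟩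
    rw [List.mem_map]
    refine ⟨(hd (cc 5)).pc, ?_, rfl⟩
    rw [keysD, List.mem_filterMap]
    refine ⟨hd (cc 5), hd_mem _, ?_⟩
    rw [if_pos]
    refine ⟨?_, ?_⟩
    · change 2 * lbDeg (cc 5) + 3 ≤ capB β
      rw [capB]
      omega
    · have h := land_guard (6 - β / 49 - wt 0 (cc 5)) (by omega)
        (6 - β / 7 % 7 - wt 1 (cc 5)) (by omega) (6 - β % 7 - wt 2 (cc 5)) (by omega)
      have e : Nat.sub (Nat.add (RB β) 2184) (hd (cc 5)).pc
          = 256 * (8 + (6 - β / 49 - wt 0 (cc 5))) + 16 * (8 + (6 - β / 7 % 7 - wt 1 (cc 5)))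
            + (8 + (6 - β % 7 - wt 2 (cc 5))) := by
        change pk (6 - β / 49) (6 - β / 7 % 7) (6 - β % 7) + 2184
          - pk (wt 0 (cc 5)) (wt 1 (cc 5)) (wt 2 (cc 5)) = _
        simp only [pk]
        omega
      rw [cntD, e, h]
      rfl
  have h6 := hjobs _ hjob
  rw [jobD, frc_eq, frc_eq] at h6
  exact runD_sound GD hG TBL hT tb htb (leaf β m) (6 - β / 49) (6 - β / 7 % 7) (6 - β % 7)
    (capB β) (Nat.sub_le _ _) (Nat.sub_le _ _) (Nat.sub_le _ _) cc h6 hm (by omega) (by omega)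
    (by omega) (by rw [capB]; omega) hbal

end Pool.Agent.Work.MP_bde882_al.H69
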